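import Pool.Agent.Helper68.Poly

set_option autoImplicit false

/-!
The three-point certificate: data, checker and the real-number meaning of the check.
-/

namespace Pool.Agent.Helper68

/-- Data of a three-point certificate. -/
structure Cert where
  phi : List (List P1)
  psi : List P1
  delta : ℤ
  sc : ℤ
  sn : ℤ
  sd : ℤ
  t0 : List P3
  s0 : List (P3 × P3)
  t1 : List P3
  t4 : List P3
  s4 : List (P3 × P3)
  rem : List (ℤ × P3)
  remS : List (ℤ × P3 × P3)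
  rem4 : List (ℤ × P3)

/-! ### substitution -/

def sub1 (Z : P3) : P1 → P3
  | [] => []
  | a :: p => add3 (con3 a) (mul3 Z (sub1 Z p))

def sub2 (Y Z : P3) : P2 → P3
  | [] => []
  | a :: p => add3 (sub1 Z a) (mul3 Y (sub2 Y Z p))

def sub3 (X Y Z : P3) : P3 → P3
  | [] => []
  | a :: p => add3 (sub2 Y Z a) (mul3 X (sub3 X Y Z p))

lemma ev3_nil (x y z : ℝ) : ev3 x y z [] = 0 := rfl

lemma ev3_sub1 (x y z : ℝ) (Z : P3) : ∀ p : P1, ev3 x y z (sub1 Z p) = ev1 (ev3 x y z Z) p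
  | [] => rfl
  | a :: p => by
    rw [sub1, ev3_add, ev3_con, ev3_mul, ev3_sub1 x y z Z p]
    rfl

lemma ev3_sub2 (x y z : ℝ) (Y Z : P3) :
    ∀ p : P2, ev3 x y z (sub2 Y Z p) = ev2 (ev3 x y z Y) (ev3 x y z Z) p
  | [] => rfl
  | a :: p => by
    rw [sub2, ev3_add, ev3_sub1, ev3_mul, ev3_sub2 x y z Y Z p]
    rfl

lemma ev3_sub3 (x y z : ℝ) (X Y Z : P3) :
    ∀ p : P3, ev3 x y z (sub3 X Y Z p) = ev3 (ev3 x y z X) (ev3 x y z Y) (ev3 x y z Z) p
  | [] => rfl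
  | a :: p => by
    rw [sub3, ev3_add, ev3_sub2, ev3_mul, ev3_sub3 x y z X Y Z p]
    rfl

/-! ### variables -/

def vu : P3 := [[], [[1]]]
def vv : P3 := [[[], [1]]]
def vt : P3 := [[[0, 1]]]

lemma ev3_vu (x y z : ℝ) : ev3 x y z vu = x := by simp [ev3, vu, ev2, ev1, peval]
lemma ev3_vv (x y z : ℝ) : ev3 x y z vv = y := by simp [ev3, vv, ev2, ev1, peval]
lemma ev3_vt (x y z : ℝ) : ev3 x y z vt = z := by simp [ev3, vt, ev2, ev1, peval]

/-- negated polynomial `-p` -/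
def neg3 (p : P3) : P3 := mul3 (con3 (-1)) p

lemma ev3_neg (x y z : ℝ) (p : P3) : ev3 x y z (neg3 p) = - ev3 x y z p := by
  rw [neg3, ev3_mul, ev3_con]; push_cast; ring

/-! ### the kernels `Q_m` -/

/-- real kernels: `Q_0 = 1`, `Q_1 = t - uv`,
`Q_{m+2} = 2 (t - uv) Q_{m+1} - (1-u^2)(1-v^2) Q_m`. -/
noncomputable def Qr (u v t : ℝ) : ℕ → ℝ
  | 0 => 1
  | 1 => t - u * v
  | m + 2 => 2 * (t - u * v) * Qr u v t (m + 1) - (1 - u ^ 2) * (1 - v ^ 2) * Qr u v t m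

/-- polynomial pair `(Q_m, Q_{m+1})` -/
def Qpair (A B : P3) : ℕ → P3 × P3
  | 0 => (con3 1, A)
  | m + 1 => let q := Qpair A B m
    (q.2, add3 (mul3 (con3 2) (mul3 A q.2)) (neg3 (mul3 B q.1)))

lemma ev3_Qpair (x y z u v t : ℝ) (A B : P3) (hA : ev3 x y z A = t - u * v)
    (hB : ev3 x y z B = (1 - u ^ 2) * (1 - v ^ 2)) :
    ∀ m, ev3 x y z (Qpair A B m).1 = Qr u v t m ∧ ev3 x y z (Qpair A B m).2 = Qr u v t (m + 1)
  | 0 => ⟨by simp [Qpair, ev3_con, Qr], by simp [Qpair, Qr, hA]⟩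
  | m + 1 => by
    obtain ⟨h1, h2⟩ := ev3_Qpair x y z u v t A B hA hB m
    refine ⟨h2, ?_⟩
    simp only [Qpair]
    rw [ev3_add, ev3_neg, ev3_mul, ev3_mul, ev3_mul, ev3_con, hA, hB, h1, h2, Qr]
    push_cast
    ring

/-- `∑_k φ_k(u) φ_k(v)` -/
noncomputable def phiSum (u v : ℝ) : List P1 → ℝ
  | [] => 0
  | p :: l => ev1 u p * ev1 v p + phiSum u v l

def phiPoly (X Y : P3) : List P1 → P3
  | [] => []
  | p :: l => add3 (mul3 (sub1 X p) (sub1 Y p)) (phiPoly X Y l)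

lemma ev3_phiPoly (x y z : ℝ) (X Y : P3) :
    ∀ l, ev3 x y z (phiPoly X Y l) = phiSum (ev3 x y z X) (ev3 x y z Y) l
  | [] => rfl
  | p :: l => by
    rw [phiPoly, ev3_add, ev3_mul, ev3_sub1, ev3_sub1, ev3_phiPoly x y z X Y l, phiSum]

/-- `S(u,v,t) = ∑_m (∑_k φ_{m,k}(u) φ_{m,k}(v)) Q_m(u,v,t)`, starting at index `m`. -/
noncomputable def Sr (u v t : ℝ) : ℕ → List (List P1) → ℝ
  | _, [] => 0
  | m, l :: L => phiSum u v l * Qr u v t m + Sr u v t (m + 1) L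

def Spoly (X Y A B : P3) : P3 × P3 → List (List P1) → P3
  | _, [] => []
  | q, l :: L => add3 (mul3 (phiPoly X Y l) q.1)
      (Spoly X Y A B (q.2, add3 (mul3 (con3 2) (mul3 A q.2)) (neg3 (mul3 B q.1))) L)

lemma ev3_Spoly (x y z u v t : ℝ) (X Y A B : P3) (hX : ev3 x y z X = u) (hY : ev3 x y z Y = v)
    (hA : ev3 x y z A = t - u * v) (hB : ev3 x y z B = (1 - u ^ 2) * (1 - v ^ 2)) :
    ∀ (L : List (List P1)) (m : ℕ) (q : P3 × P3),
      ev3 x y z q.1 = Qr u v t m → ev3 x y z q.2 = Qr u v t (m + 1) →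
      ev3 x y z (Spoly X Y A B q L) = Sr u v t m L
  | [], _, _, _, _ => rfl
  | l :: L, m, q, h1, h2 => by
    rw [Spoly, ev3_add, ev3_mul, ev3_phiPoly, hX, hY, h1, Sr]
    rw [ev3_Spoly x y z u v t X Y A B hX hY hA hB L (m + 1) _ h2]
    rw [ev3_add, ev3_neg, ev3_mul, ev3_mul, ev3_mul, ev3_con, hA, hB, h1, h2]
    simp only [Qr]
    push_cast
    ring

/-- The polynomial of `S` at three polynomials. -/
def SS (c : Cert) (X Y Z : P3) : P3 :=
  let A := add3 Z (neg3 (mul3 X Y))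
  let B := mul3 (add3 (con3 1) (neg3 (mul3 X X))) (add3 (con3 1) (neg3 (mul3 Y Y)))
  Spoly X Y A B (con3 1, A) c.phi

/-- the real function `S` (times the scale) -/
noncomputable def Cert.S (c : Cert) (u v t : ℝ) : ℝ := Sr u v t 0 c.phi

lemma ev3_SS (c : Cert) (x y z : ℝ) (X Y Z : P3) :
    ev3 x y z (SS c X Y Z) = c.S (ev3 x y z X) (ev3 x y z Y) (ev3 x y z Z) := by
  have hA : ev3 x y z (add3 Z (neg3 (mul3 X Y))) =
      ev3 x y z Z - ev3 x y z X * ev3 x y z Y := by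
    rw [ev3_add, ev3_neg, ev3_mul]; ring
  have hB : ev3 x y z (mul3 (add3 (con3 1) (neg3 (mul3 X X)))
      (add3 (con3 1) (neg3 (mul3 Y Y)))) = (1 - ev3 x y z X ^ 2) * (1 - ev3 x y z Y ^ 2) := by
    rw [ev3_mul, ev3_add, ev3_add, ev3_neg, ev3_neg, ev3_mul, ev3_mul, ev3_con]
    push_cast
    ring
  unfold SS Cert.S
  apply ev3_Spoly x y z _ _ _ X Y _ _ rfl rfl hA hB
  · simp [ev3_con, Qr]
  · simp [hA, Qr]

/-! ### the univariate part -/

/-- `∑_k ψ_k(x)^2` -/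
noncomputable def sq1 (x : ℝ) : List P1 → ℝ
  | [] => 0
  | p :: l => ev1 x p ^ 2 + sq1 x l

lemma sq1_nonneg (x : ℝ) : ∀ l, 0 ≤ sq1 x l
  | [] => le_refl _
  | p :: l => add_nonneg (sq_nonneg _) (sq1_nonneg x l)

def sq1P : List P1 → P1
  | [] => []
  | p :: l => add1 (mul1 p p) (sq1P l)

lemma ev1_sq1P (x : ℝ) : ∀ l, ev1 x (sq1P l) = sq1 x l
  | [] => rfl
  | p :: l => by rw [sq1P, ev1_add, ev1_mul, ev1_sq1P x l, sq1]; ring

/-- `∑_m (∑_k φ_{m,k}(x)^2) (1-x^2)^m`, i.e. `S(x,x,1)`. -/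
def diagP : P1 → List (List P1) → P1
  | _, [] => []
  | w, l :: L => add1 (mul1 (sq1P l) w) (diagP (mul1 [1, 0, -1] w) L)

noncomputable def diagR (x w : ℝ) : List (List P1) → ℝ
  | [] => 0
  | l :: L => sq1 x l * w + diagR x ((1 - x ^ 2) * w) L

lemma ev1_diagP (x : ℝ) : ∀ (L : List (List P1)) (w : P1),
    ev1 x (diagP w L) = diagR x (ev1 x w) L
  | [], _ => rfl
  | l :: L, w => by
    rw [diagP, ev1_add, ev1_mul, ev1_sq1P, ev1_diagP x L, ev1_mul, diagR]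
    have : ev1 x [1, 0, -1] = 1 - x ^ 2 := by
      simp [ev1, peval]; ring
    rw [this]

/-- `2 * ∑_k φ_{0,k}(1) φ_{0,k}(x)` -/
def edgeP : List P1 → P1
  | [] => []
  | p :: l => add1 (mul1 [2 * p.sum] p) (edgeP l)

noncomputable def edgeR (x : ℝ) : List P1 → ℝ
  | [] => 0
  | p :: l => 2 * ev1 1 p * ev1 x p + edgeR x l

lemma ev1_one (p : P1) : ev1 1 p = (p.sum : ℤ) := by
  induction p with
  | nil => simp [ev1, peval]
  | cons a p ih =>
    have : ev1 1 (a :: p) = a + 1 * ev1 1 p := rfl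
    rw [this, ih, List.sum_cons]
    push_cast
    ring

lemma ev1_single (x : ℝ) (n : ℤ) : ev1 x [n] = n := by simp [ev1, peval]

lemma ev1_edgeP (x : ℝ) : ∀ l, ev1 x (edgeP l) = edgeR x l
  | [] => rfl
  | p :: l => by
    rw [edgeP, ev1_add, ev1_mul, ev1_edgeP x l, edgeR, ev1_single, ev1_one]
    push_cast
    ring

/-- `g(x) = S(x,x,1) + 2 S(1,x,x)` -/
def Cert.gP (c : Cert) : P1 := add1 (diagP [1] c.phi) (edgeP (c.phi.headD []))

/-- real version of `g` -/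
noncomputable def Cert.g (c : Cert) (x : ℝ) : ℝ := diagR x 1 c.phi + edgeR x (c.phi.headD [])

lemma ev1_gP (c : Cert) (x : ℝ) : ev1 x c.gP = c.g x := by
  rw [Cert.gP, ev1_add, ev1_diagP, ev1_edgeP, Cert.g, ev1_single]
  simp

/-- `2 G = 2 g + (x+1)(1-2x) ∑ ψ_k^2` -/
def Cert.G2P (c : Cert) : P1 := add1 (mul1 [2] c.gP) (mul1 [1, -1, -2] (sq1P c.psi))

noncomputable def Cert.G2 (c : Cert) (x : ℝ) : ℝ :=
  2 * c.g x + (x + 1) * (1 - 2 * x) * sq1 x c.psi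

lemma ev1_G2P (c : Cert) (x : ℝ) : ev1 x c.G2P = c.G2 x := by
  rw [Cert.G2P, ev1_add, ev1_mul, ev1_mul, ev1_single, ev1_gP, ev1_sq1P, Cert.G2]
  have : ev1 x [1, -1, -2] = (x + 1) * (1 - 2 * x) := by
    simp [ev1, peval]; ring
  rw [this]
  push_cast
  ring

/-! ### sums of squares in the elementary symmetric functions -/

def sqT : List P3 → P3
  | [] => []
  | p :: l => add3 (mul3 p p) (sqT l)

lemma ev3_sqT_nonneg (x y z : ℝ) : ∀ l, 0 ≤ ev3 x y z (sqT l)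
  | [] => le_refl _
  | p :: l => by
    rw [sqT, ev3_add, ev3_mul]
    exact add_nonneg (mul_self_nonneg _) (ev3_sqT_nonneg x y z l)

def sqR : List (ℤ × P3) → P3
  | [] => []
  | p :: l => add3 (mul3 (con3 p.1) (mul3 p.2 p.2)) (sqR l)

lemma ev3_sqR_nonneg (x y z : ℝ) : ∀ l : List (ℤ × P3), (l.all fun p => decide (0 ≤ p.1)) = true →
    0 ≤ ev3 x y z (sqR l)
  | [], _ => le_refl _
  | p :: l, h => by
    rw [List.all_cons, Bool.and_eq_true] at h
    rw [sqR, ev3_add, ev3_mul, ev3_mul, ev3_con]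
    have h1 : (0 : ℝ) ≤ (p.1 : ℝ) := by exact_mod_cast of_decide_eq_true h.1
    exact add_nonneg (mul_nonneg h1 (mul_self_nonneg _)) (ev3_sqR_nonneg x y z l h.2)

/-- `4(e1^2 - 3 e2)` -/
def pi11 : P3 := [[[], [-12]], [], [[4]]]
/-- `18 e3 - 2 e1 e2` -/
def pi12 : P3 := [[[0, 18]], [[], [-2]]]
/-- `4(e2^2 - 3 e1 e3)` -/
def pi22 : P3 := [[[], [], [4]], [[0, -12]]]

lemma ev3_pi11 (x y z : ℝ) : ev3 x y z pi11 = 4 * (x ^ 2 - 3 * y) := by
  simp [ev3, pi11, ev2, ev1, peval]; ring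
lemma ev3_pi12 (x y z : ℝ) : ev3 x y z pi12 = 18 * z - 2 * x * y := by
  simp [ev3, pi12, ev2, ev1, peval]; ring
lemma ev3_pi22 (x y z : ℝ) : ev3 x y z pi22 = 4 * (y ^ 2 - 3 * x * z) := by
  simp [ev3, pi22, ev2, ev1, peval]; ring

/-- sums `∑ A^2`, `∑ A B`, `∑ B^2` -/
def sAA : List (P3 × P3) → P3
  | [] => []
  | p :: l => add3 (mul3 p.1 p.1) (sAA l)
def sAB : List (P3 × P3) → P3
  | [] => []
  | p :: l => add3 (mul3 p.1 p.2) (sAB l)
def sBB : List (P3 × P3) → P3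
  | [] => []
  | p :: l => add3 (mul3 p.2 p.2) (sBB l)

/-- the standard-representation part -/
def sqS (l : List (P3 × P3)) : P3 :=
  add3 (mul3 pi11 (sAA l)) (add3 (mul3 (con3 2) (mul3 pi12 (sAB l))) (mul3 pi22 (sBB l)))

lemma ev3_sqS_nonneg (u v t : ℝ) (l : List (P3 × P3)) :
    0 ≤ ev3 (u + v + t) (u * v + v * t + u * t) (u * v * t) (sqS l) := by
  rw [sqS, ev3_add, ev3_add, ev3_mul, ev3_mul, ev3_mul, ev3_mul, ev3_con, ev3_pi11, ev3_pi12,
    ev3_pi22]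
  induction l with
  | nil => simp [sAA, sAB, sBB, ev3_nil]
  | cons p l ih =>
    rw [sAA, sAB, sBB, ev3_add, ev3_add, ev3_add, ev3_mul, ev3_mul, ev3_mul]
    set A := ev3 (u + v + t) (u * v + v * t + u * t) (u * v * t) p.1
    set B := ev3 (u + v + t) (u * v + v * t + u * t) (u * v * t) p.2
    have h1 : 0 ≤ (A * (2 * u - v - t) + B * (2 * (v * t) - u * t - u * v)) ^ 2 := sq_nonneg _
    have h2 : 0 ≤ (A * (v - t) + B * (u * t - u * v)) ^ 2 := sq_nonneg _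
    push_cast at ih ⊢
    nlinarith [h1, h2, ih]

/-- weighted squares in the standard representation part -/
def sqRS : List (ℤ × P3 × P3) → P3
  | [] => []
  | p :: l => add3 (mul3 (con3 p.1) (sqS [p.2])) (sqRS l)

lemma ev3_sqRS_nonneg (u v t : ℝ) : ∀ l : List (ℤ × P3 × P3),
    (l.all fun p => decide (0 ≤ p.1)) = true →
    0 ≤ ev3 (u + v + t) (u * v + v * t + u * t) (u * v * t) (sqRS l)
  | [], _ => le_refl _
  | p :: l, h => by
    rw [List.all_cons, Bool.and_eq_true] at h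
    rw [sqRS, ev3_add, ev3_mul, ev3_con]
    have h1 : (0 : ℝ) ≤ (p.1 : ℝ) := by exact_mod_cast of_decide_eq_true h.1
    exact add_nonneg (mul_nonneg h1 (ev3_sqS_nonneg u v t [p.2])) (ev3_sqRS_nonneg u v t l h.2)

/-- `sd * p1 = -sd (e1^2 - 2 e2) + (sn - sd) e1 + 3 sn` -/
def p1P (c : Cert) : P3 := [[[3 * c.sn], [2 * c.sd]], [[c.sn - c.sd]], [[-c.sd]]]
/-- `p4 = 1 + 2 e3 - (e1^2 - 2 e2)` -/
def p4P : P3 := [[[1, 2], [2]], [], [[-1]]]

lemma ev3_p1P (c : Cert) (x y z : ℝ) :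
    ev3 x y z (p1P c) = -c.sd * (x ^ 2 - 2 * y) + (c.sn - c.sd) * x + 3 * c.sn := by
  simp [ev3, p1P, ev2, ev1, peval]; ring
lemma ev3_p4P (x y z : ℝ) : ev3 x y z p4P = 1 + 2 * z - (x ^ 2 - 2 * y) := by
  simp [ev3, p4P, ev2, ev1, peval]; ring

/-- the sum-of-squares side, a polynomial in the elementary symmetric functions -/
def Cert.sosE (c : Cert) : P3 :=
  add3 (mul3 (con3 (132 * c.sd)) (add3 (sqT c.t0) (sqS c.s0)))
    (add3 (mul3 (con3 132) (mul3 (p1P c) (sqT c.t1)))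
      (add3 (mul3 p4P (add3 (mul3 (con3 (132 * c.sd)) (add3 (sqT c.t4) (sqS c.s4)))
        (sqR c.rem4))) (add3 (sqR c.rem) (sqRS c.remS))))

/-- elementary symmetric polynomials of the three variables -/
def el1 : P3 := [[[0, 1], [1]], [[1]]]
def el2 : P3 := [[[], [0, 1]], [[0, 1], [1]]]
def el3 : P3 := [[], [[], [0, 1]]]

lemma ev3_el1 (x y z : ℝ) : ev3 x y z el1 = x + y + z := by
  simp [ev3, el1, ev2, ev1, peval]; ring
lemma ev3_el2 (x y z : ℝ) : ev3 x y z el2 = x * y + y * z + x * z := by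
  simp [ev3, el2, ev2, ev1, peval]; ring
lemma ev3_el3 (x y z : ℝ) : ev3 x y z el3 = x * y * z := by
  simp [ev3, el3, ev2, ev1, peval]; ring

/-- left-hand side of the identity -/
def Cert.lhs (c : Cert) : P3 :=
  add3 (mul3 (con3 (132 * c.sd)) (add3 (con3 (3 * c.delta))
      (add3 (SS c vu vv vt) (add3 (SS c vt vu vv) (SS c vv vt vu)))))
    (mul3 (con3 (6 * c.sd)) (add3 (sub1 vu c.G2P) (add3 (sub1 vv c.G2P) (sub1 vt c.G2P))))

/-- the identity check -/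
def Cert.checkId (c : Cert) : Bool := isz3 (add3 c.lhs (sub3 el1 el2 el3 c.sosE))

/-- nonnegativity of the remainder coefficients, and of the denominators -/
def Cert.checkRem (c : Cert) : Bool :=
  (c.rem.all fun p => decide (0 ≤ p.1)) && (c.rem4.all fun p => decide (0 ≤ p.1)) &&
    (c.remS.all fun p => decide (0 ≤ p.1)) && decide (0 < c.sc) && decide (0 < c.sd)

/-- The pointwise inequality for triples. -/
theorem Cert.triple (c : Cert) (h1 : c.checkId = true) (h2 : c.checkRem = true)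
    (u v t : ℝ)
    (hu : 0 ≤ (u + 1) * (c.sn - c.sd * u)) (hv : 0 ≤ (v + 1) * (c.sn - c.sd * v))
    (ht : 0 ≤ (t + 1) * (c.sn - c.sd * t))
    (hdet : 0 ≤ 1 + 2 * (u * v * t) - (u ^ 2 + v ^ 2 + t ^ 2)) :
    22 * (3 * c.delta + c.S u v t + c.S t u v + c.S v t u) + c.G2 u + c.G2 v + c.G2 t ≤ 0 := by
  rw [Cert.checkRem, Bool.and_eq_true, Bool.and_eq_true, Bool.and_eq_true, Bool.and_eq_true,
    decide_eq_true_eq, decide_eq_true_eq] at h2
  have hsd : (0 : ℝ) < c.sd := by exact_mod_cast h2.2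
  have hid := ev3_isz u v t _ h1
  rw [ev3_add, ev3_sub3, ev3_el1, ev3_el2, ev3_el3] at hid
  have hl : ev3 u v t c.lhs =
      132 * c.sd * (3 * c.delta + (c.S u v t + (c.S t u v + c.S v t u)))
      + 6 * c.sd * (c.G2 u + (c.G2 v + c.G2 t)) := by
    rw [Cert.lhs, ev3_add, ev3_mul, ev3_mul, ev3_add, ev3_add, ev3_add, ev3_add, ev3_add,
      ev3_con, ev3_con, ev3_con, ev3_SS, ev3_SS, ev3_SS, ev3_sub1, ev3_sub1, ev3_sub1,
      ev3_vu, ev3_vv, ev3_vt, ev1_G2P, ev1_G2P, ev1_G2P]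
    push_cast
    ring
  have hs : 0 ≤ ev3 (u + v + t) (u * v + v * t + u * t) (u * v * t) c.sosE := by
    have hexp : ev3 (u + v + t) (u * v + v * t + u * t) (u * v * t) c.sosE =
        132 * c.sd * (ev3 (u + v + t) (u * v + v * t + u * t) (u * v * t) (sqT c.t0) +
          ev3 (u + v + t) (u * v + v * t + u * t) (u * v * t) (sqS c.s0)) +
        (132 * ((-(c.sd : ℝ) * ((u + v + t) ^ 2 - 2 * (u * v + v * t + u * t)) +
          (c.sn - c.sd) * (u + v + t) + 3 * c.sn) *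
          ev3 (u + v + t) (u * v + v * t + u * t) (u * v * t) (sqT c.t1)) +
        ((1 + 2 * (u * v * t) - ((u + v + t) ^ 2 - 2 * (u * v + v * t + u * t))) *
          (132 * c.sd * (ev3 (u + v + t) (u * v + v * t + u * t) (u * v * t) (sqT c.t4) +
          ev3 (u + v + t) (u * v + v * t + u * t) (u * v * t) (sqS c.s4)) +
          ev3 (u + v + t) (u * v + v * t + u * t) (u * v * t) (sqR c.rem4)) +
        (ev3 (u + v + t) (u * v + v * t + u * t) (u * v * t) (sqR c.rem) +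
          ev3 (u + v + t) (u * v + v * t + u * t) (u * v * t) (sqRS c.remS)))) := by
      simp only [Cert.sosE, ev3_add, ev3_mul, ev3_con, ev3_p1P, ev3_p4P]
      push_cast
      ring
    rw [hexp]
    have a1 := ev3_sqT_nonneg (u + v + t) (u * v + v * t + u * t) (u * v * t) c.t0
    have a2 := ev3_sqS_nonneg u v t c.s0
    have a3 := ev3_sqT_nonneg (u + v + t) (u * v + v * t + u * t) (u * v * t) c.t1
    have a4 := ev3_sqT_nonneg (u + v + t) (u * v + v * t + u * t) (u * v * t) c.t4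
    have a5 := ev3_sqS_nonneg u v t c.s4
    have a6 := ev3_sqR_nonneg (u + v + t) (u * v + v * t + u * t) (u * v * t) c.rem h2.1.1.1.1
    have a7 := ev3_sqR_nonneg (u + v + t) (u * v + v * t + u * t) (u * v * t) c.rem4 h2.1.1.1.2
    have a8 := ev3_sqRS_nonneg u v t c.remS h2.1.1.2
    have b1 : 0 ≤ -(c.sd : ℝ) * ((u + v + t) ^ 2 - 2 * (u * v + v * t + u * t)) +
        (c.sn - c.sd) * (u + v + t) + 3 * c.sn := by nlinarith [hu, hv, ht]
    have b2 : 0 ≤ 1 + 2 * (u * v * t) - ((u + v + t) ^ 2 - 2 * (u * v + v * t + u * t)) := by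
      nlinarith [hdet]
    have c1 : (0 : ℝ) ≤ 132 * c.sd := by positivity
    refine add_nonneg (mul_nonneg c1 (add_nonneg a1 a2)) (add_nonneg (mul_nonneg (by norm_num)
      (mul_nonneg b1 a3)) (add_nonneg (mul_nonneg b2 (add_nonneg (mul_nonneg c1
        (add_nonneg a4 a5)) a7)) (add_nonneg a6 a8)))
  rw [hl] at hid
  have : 6 * (c.sd : ℝ) * (22 * (3 * c.delta + c.S u v t + c.S t u v + c.S v t u) + c.G2 u +
      c.G2 v + c.G2 t) ≤ 0 := by linarith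
  by_contra hc
  push Not at hc
  have := mul_pos (mul_pos (by norm_num : (0 : ℝ) < 6) hsd) hc
  linarith

end Pool.Agent.Helper68
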