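import Mathlib

/-!
# A fractional hitting lemma for knapsack families

Items `i ∈ Q` with costs `k i > 0`, `k i < σ`, total cost at most `p σ`.  If `w ≥ 0` is a measure on the
subsets `X` of `Q` with at most `p` elements such that every set `Z` of cost `< σ` is met by sets
of total mass at most `1`, then `∑ w X |X| ≤ 2 p`.

The proof takes the `p` largest items, each together with a maximal initial segment (of the
others, in uniformly random order) which still fits, and `p` times a maximal initial segment of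
the others; all averages are computed by recursion.
-/

namespace Pool.Agent.Helper68.LemmaK

open Finset

variable {ι : Type*} [DecidableEq ι]

/-- the bound for the probability that the total cost of the ordinary items (of total cost `K`)
before the first of `x` special ones is at least `u` -/
noncomputable def g (K x u : ℝ) : ℝ := if u ≤ 0 then 1 else K / (K + x * u)

lemma g_of_nonpos {K x u : ℝ} (h : u ≤ 0) : g K x u = 1 := if_pos h

lemma g_of_pos {K x u : ℝ} (h : 0 < u) : g K x u = K / (K + x * u) := if_neg (not_le.mpr h)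

lemma g_step {K x c u : ℝ} (hcK : c ≤ K) (hc : 0 < c) (hx : 0 < x) (hu : 0 < u) :
    g (K - c) x (u - c) ≤ (K + x * c) / (K + x * u) := by
  have hK : 0 < K := lt_of_lt_of_le hc hcK
  have hD : 0 < K + x * u := by positivity
  rcases le_or_gt (u - c) 0 with h | h
  · rw [g_of_nonpos h, le_div_iff₀ hD]
    nlinarith
  · have hE : 0 < K - c + x * (u - c) := by
      have := mul_pos hx h
      linarith
    rw [g_of_pos h, div_le_div_iff₀ hE hD]
    have h1 : 0 ≤ (x + 1) * c * (x * (u - c)) := by positivity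
    nlinarith

omit [DecidableEq ι] in
lemma key_sum {T : Finset ι} {k : ι → ℝ} (hk : ∀ i ∈ T, 0 < k i) {x : ℝ} (hx : 0 < x) (u : ℝ) :
    ∑ i ∈ T, g ((∑ j ∈ T, k j) - k i) x (u - k i) + (if u ≤ 0 then x else 0)
      ≤ (T.card + x) * g (∑ j ∈ T, k j) x u := by
  rcases le_or_gt u 0 with h | h
  · rw [if_pos h, g_of_nonpos h]
    have : ∑ i ∈ T, g ((∑ j ∈ T, k j) - k i) x (u - k i) = ∑ i ∈ T, (1 : ℝ) :=
      Finset.sum_congr rfl fun i hi => g_of_nonpos (by have := hk i hi; linarith)
    rw [this]
    simp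
  · rw [if_neg (not_le.mpr h), g_of_pos h, add_zero]
    set K := ∑ j ∈ T, k j with hKdef
    have hK0 : 0 ≤ K := Finset.sum_nonneg fun i hi => (hk i hi).le
    have h1 : ∑ i ∈ T, g (K - k i) x (u - k i) ≤ ∑ i ∈ T, (K + x * k i) / (K + x * u) := by
      refine Finset.sum_le_sum fun i hi => g_step ?_ (hk i hi) hx h
      exact Finset.single_le_sum (f := k) (fun j hj => (hk j hj).le) hi
    refine h1.trans (le_of_eq ?_)
    rw [← Finset.sum_div, Finset.sum_add_distrib, ← Finset.mul_sum, ← hKdef]
    simp only [Finset.sum_const, nsmul_eq_mul]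
    ring

/-- the bound for the probability that the set `X` is missed by the maximal initial segment of
cost `< t` of `S` in random order -/
noncomputable def F (k : ι → ℝ) (S : Finset ι) (t : ℝ) (X : Finset ι) : ℝ :=
  if X ∩ S = ∅ then 1
  else (∑ Y ∈ X ∩ S, g (∑ i ∈ S \ X, k i) ((X ∩ S).card : ℝ) (t - k Y)) / ((X ∩ S).card : ℝ)

/-- one step of the recursion -/
noncomputable def c (k : ι → ℝ) (S : Finset ι) (t : ℝ) (i : ι) (X : Finset ι) : ℝ :=
  if k i < t then (if i ∈ X then 0 else F k (S.erase i) (t - k i) X) else 1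

lemma sum_c_le (k : ι → ℝ) (S : Finset ι) (hk : ∀ i ∈ S, 0 < k i) (t : ℝ) (X : Finset ι) :
    ∑ i ∈ S, c k S t i X ≤ S.card * F k S t X := by
  by_cases hXS : X ∩ S = ∅
  · have h1 : ∀ i ∈ S, c k S t i X = 1 := by
      intro i hi
      have hiX : i ∉ X := fun h => by
        have : i ∈ X ∩ S := Finset.mem_inter.mpr ⟨h, hi⟩
        rw [hXS] at this
        simp at this
      have h2 : X ∩ S.erase i = ∅ := by
        rw [Finset.eq_empty_iff_forall_notMem] at hXS ⊢
        intro j hj
        exact hXS j (Finset.mem_inter.mpr ⟨(Finset.mem_inter.mp hj).1,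
          Finset.mem_of_mem_erase (Finset.mem_inter.mp hj).2⟩)
      unfold c F
      split_ifs <;> rfl
    rw [Finset.sum_congr rfl h1]
    unfold F
    rw [if_pos hXS]
    simp
  · set x : ℝ := ((X ∩ S).card : ℝ) with hx
    have hxpos : 0 < x := by
      rw [hx]
      exact_mod_cast Finset.card_pos.mpr (Finset.nonempty_iff_ne_empty.mpr hXS)
    set K := ∑ i ∈ S \ X, k i with hK
    -- the ordinary items
    have hord : ∀ i ∈ S \ X, c k S t i X = (∑ Y ∈ X ∩ S, g (K - k i) x (t - k Y - k i)) / x := by
      intro i hi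
      have hiS : i ∈ S := (Finset.mem_sdiff.mp hi).1
      have hiX : i ∉ X := (Finset.mem_sdiff.mp hi).2
      have h2 : X ∩ S.erase i = X ∩ S := by
        ext j
        simp only [Finset.mem_inter, Finset.mem_erase]
        constructor
        · rintro ⟨h1, _, h3⟩
          exact ⟨h1, h3⟩
        · rintro ⟨h1, h3⟩
          exact ⟨h1, fun h => hiX (h ▸ h1), h3⟩
      have h3 : ∑ j ∈ S.erase i \ X, k j = K - k i := by
        have : S.erase i \ X = (S \ X).erase i := by
          ext j
          simp only [Finset.mem_sdiff, Finset.mem_erase]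
          tauto
        rw [this, ← Finset.add_sum_erase _ _ hi] at *
        linarith
      by_cases hit : k i < t
      · unfold c F
        rw [if_pos hit, if_neg hiX, h2, if_neg hXS, h3, ← hx]
        congr 1
        refine Finset.sum_congr rfl fun Y _ => ?_
        congr 1
        ring
      · unfold c
        rw [if_neg hit]
        have : ∑ Y ∈ X ∩ S, g (K - k i) x (t - k Y - k i) = x := by
          rw [hx, Finset.sum_congr rfl (g := fun _ => (1 : ℝ))]
          · simp
          · intro Y hY
            apply g_of_nonpos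
            have := hk Y (Finset.mem_inter.mp hY).2
            linarith
        rw [this, div_self hxpos.ne']
    have hspec : ∀ Y ∈ X ∩ S, c k S t Y X = (if t - k Y ≤ 0 then x else 0) / x := by
      intro Y hY
      unfold c
      rw [if_pos (Finset.mem_inter.mp hY).1]
      by_cases h : k Y < t
      · rw [if_pos h, if_neg (by linarith)]
        simp
      · rw [if_neg h, if_pos (by linarith), div_self hxpos.ne']
    have hsplit : ∑ i ∈ S, c k S t i X
        = ∑ i ∈ S \ X, c k S t i X + ∑ i ∈ X ∩ S, c k S t i X := by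
      rw [Finset.inter_comm, ← Finset.sum_union]
      · congr 1
        ext j
        simp only [Finset.mem_union, Finset.mem_sdiff, Finset.mem_inter]
        tauto
      · rw [Finset.disjoint_left]
        intro j hj hj'
        exact (Finset.mem_sdiff.mp hj).2 (Finset.mem_inter.mp hj').2
    have hcard : (S.card : ℝ) = ((S \ X).card : ℝ) + x := by
      rw [hx, Finset.inter_comm]
      exact_mod_cast (Finset.card_sdiff_add_card_inter S X).symm
    rw [hsplit, Finset.sum_congr rfl hord, Finset.sum_congr rfl hspec, ← Finset.sum_div,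
      Finset.sum_comm, ← Finset.sum_div, ← add_div, ← Finset.sum_add_distrib]
    unfold F
    rw [if_neg hXS, ← hx, ← hK, ← mul_div_assoc]
    apply div_le_div_of_nonneg_right _ hxpos.le
    rw [Finset.mul_sum]
    refine Finset.sum_le_sum fun Y _ => ?_
    rw [hcard, hK]
    exact key_sum (fun i hi => hk i (Finset.mem_sdiff.mp hi).1) hxpos (t - k Y)

/-- averaging over the maximal initial segments of cost `< t` -/
theorem average (k : ι → ℝ) (P : Finset (Finset ι)) (w : Finset ι → ℝ)
    (hw : ∀ X ∈ P, 0 ≤ w X) (m : ℝ) : ∀ (n : ℕ) (S : Finset ι), S.card = n →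
    (∀ i ∈ S, 0 < k i) → ∀ (A : Finset ι) (t : ℝ), 0 < t →
    (∀ Z ⊆ S, ∑ i ∈ Z, k i < t → m ≤ ∑ X ∈ P.filter (fun X => Disjoint X (A ∪ Z)), w X) →
    m ≤ ∑ X ∈ P.filter (fun X => Disjoint X A), w X * F k S t X := by
  intro n
  induction n with
  | zero =>
    intro S hS _ A t ht h
    have hS0 : S = ∅ := Finset.card_eq_zero.mp hS
    have := h ∅ (Finset.empty_subset _) (by simpa using ht)
    rw [Finset.union_empty] at this
    refine this.trans (le_of_eq (Finset.sum_congr rfl fun X _ => ?_))
    unfold F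
    rw [hS0, Finset.inter_empty, if_pos rfl, mul_one]
  | succ n ih =>
    intro S hS hk A t ht h
    have hi : ∀ i ∈ S, m ≤ ∑ X ∈ P.filter (fun X => Disjoint X A), w X * c k S t i X := by
      intro i hi
      by_cases hit : k i < t
      · have h1 := ih (S.erase i) (by rw [Finset.card_erase_of_mem hi, hS]; rfl)
          (fun j hj => hk j (Finset.mem_of_mem_erase hj)) (insert i A) (t - k i) (by linarith)
          (fun Z hZ hZt => by
            have hiZ : i ∉ Z := fun hh => by
              have := hZ hh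
              simp at this
            have h2 := h (insert i Z) (Finset.insert_subset hi
              (hZ.trans (Finset.erase_subset _ _))) (by
                rw [Finset.sum_insert hiZ]; linarith)
            have h3 : A ∪ insert i Z = insert i A ∪ Z := by
              ext j
              simp only [Finset.mem_union, Finset.mem_insert]
              tauto
            rwa [h3] at h2)
        refine h1.trans (le_of_eq ?_)
        have h4 : (P.filter fun X => Disjoint X (insert i A))
            = (P.filter fun X => Disjoint X A).filter (fun X => i ∉ X) := by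
          ext X
          simp only [Finset.mem_filter, Finset.disjoint_insert_right]
          tauto
        rw [h4, Finset.sum_filter]
        refine Finset.sum_congr rfl fun X _ => ?_
        unfold c
        rw [if_pos hit]
        by_cases hiX : i ∈ X
        · rw [if_neg (not_not.mpr hiX), if_pos hiX, mul_zero]
        · rw [if_pos hiX, if_neg hiX]
      · have h1 := h ∅ (Finset.empty_subset _) (by simpa using ht)
        rw [Finset.union_empty] at h1
        refine h1.trans (le_of_eq (Finset.sum_congr rfl fun X _ => ?_))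
        unfold c
        rw [if_neg hit, mul_one]
    have hcard : (0 : ℝ) < S.card := by
      rw [hS]
      positivity
    have hsum : (S.card : ℝ) * m
        ≤ ∑ i ∈ S, ∑ X ∈ P.filter (fun X => Disjoint X A), w X * c k S t i X := by
      have := Finset.sum_le_sum hi
      simpa using this
    rw [Finset.sum_comm] at hsum
    have h5 : ∑ X ∈ P.filter (fun X => Disjoint X A), ∑ i ∈ S, w X * c k S t i X
        ≤ (S.card : ℝ) * ∑ X ∈ P.filter (fun X => Disjoint X A), w X * F k S t X := by
      rw [Finset.mul_sum]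
      refine Finset.sum_le_sum fun X hX => ?_
      rw [← Finset.mul_sum]
      have h6 := mul_le_mul_of_nonneg_left (sum_c_le k S hk t X)
        (hw X (Finset.mem_filter.mp hX).1)
      linarith
    exact le_of_mul_le_mul_left (hsum.trans h5) hcard

lemma exists_top (Q : Finset ι) (k : ι → ℝ) : ∀ p : ℕ, p ≤ Q.card →
    ∃ B ⊆ Q, B.card = p ∧ ∀ j ∈ B, ∀ i ∈ Q \ B, k i ≤ k j := by
  intro p
  induction p with
  | zero => exact fun _ => ⟨∅, Finset.empty_subset _, rfl, by simp⟩
  | succ p ih =>
    intro hp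
    obtain ⟨B, hB, hBc, hBk⟩ := ih (by omega)
    have hne : (Q \ B).Nonempty := by
      rw [← Finset.card_pos, Finset.card_sdiff_of_subset hB]
      omega
    obtain ⟨j, hj, hjm⟩ := Finset.exists_max_image (Q \ B) k hne
    have hjQ := (Finset.mem_sdiff.mp hj).1
    have hjB := (Finset.mem_sdiff.mp hj).2
    refine ⟨insert j B, Finset.insert_subset hjQ hB, by
      rw [Finset.card_insert_of_notMem hjB, hBc], ?_⟩
    intro a ha i hi
    have hi' : i ∈ Q \ B := by
      rw [Finset.mem_sdiff] at hi ⊢
      exact ⟨hi.1, fun h => hi.2 (Finset.mem_insert_of_mem h)⟩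
    rcases Finset.mem_insert.mp ha with rfl | ha
    · exact hjm i hi'
    · exact hBk a ha i hi'

lemma g_le_one {K x u : ℝ} (hK : 0 ≤ K) (hx : 0 < x) : g K x u ≤ 1 := by
  rcases le_or_gt u 0 with h | h
  · rw [g_of_nonpos h]
  · rw [g_of_pos h]
    have := mul_pos hx h
    exact div_le_one_of_le₀ (by linarith) (by linarith)

lemma g_le_chord {K x u m : ℝ} (hK : 0 ≤ K) (hx : 0 < x) (hm : 0 < m) (hum : u ≤ m) :
    g K x u ≤ 1 - x * u / (K + x * m) := by
  have hD : 0 < K + x * m := by positivity
  rcases le_or_gt u 0 with h | h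
  · rw [g_of_nonpos h]
    have : x * u / (K + x * m) ≤ 0 := div_nonpos_of_nonpos_of_nonneg (by nlinarith) hD.le
    linarith
  · rw [g_of_pos h]
    have hE : 0 < K + x * u := by positivity
    have h1 : K / (K + x * u) = 1 - x * u / (K + x * u) := by
      field_simp
      ring
    rw [h1]
    have h2 : x * u / (K + x * m) ≤ x * u / (K + x * u) := by
      apply div_le_div_of_nonneg_left (by positivity) hE
      nlinarith
    linarith

/-- the pointwise inequality -/
lemma pointwise {Q B X : Finset ι} {k : ι → ℝ} {σ : ℝ} {p : ℕ} (hBQ : B ⊆ Q) (hBp : B.card = p)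
    (hBk : ∀ j ∈ B, ∀ i ∈ Q \ B, k i ≤ k j) (hk : ∀ i ∈ Q, 0 < k i ∧ k i < σ)
    (hK : ∑ i ∈ Q, k i ≤ p * σ) (hXQ : X ⊆ Q) (hXp : X.card ≤ p) :
    ∑ j ∈ B \ X, F k (Q \ B) (σ - k j) X + p * F k (Q \ B) σ X ≤ 2 * p - X.card := by
  set S := Q \ B with hS
  -- cardinalities
  have hXcard : X.card = (X ∩ B).card + (X ∩ S).card := by
    rw [← Finset.card_union_of_disjoint]
    · congr 1
      ext j
      simp only [Finset.mem_union, Finset.mem_inter, hS, Finset.mem_sdiff]
      constructor
      · intro hj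
        by_cases hjB : j ∈ B
        · exact Or.inl ⟨hj, hjB⟩
        · exact Or.inr ⟨hj, hXQ hj, hjB⟩
      · tauto
    · rw [Finset.disjoint_left]
      intro j hj hj'
      exact (Finset.mem_sdiff.mp (Finset.mem_inter.mp hj').2).2 (Finset.mem_inter.mp hj).2
  have hBX : (B \ X).card + (X ∩ B).card = p := by
    rw [Finset.inter_comm, Finset.card_sdiff_add_card_inter, hBp]
  by_cases hXS : X ∩ S = ∅
  · have h1 : ∀ t, F k S t X = 1 := fun t => by
      unfold F
      rw [if_pos hXS]
    simp only [h1]
    rw [hXS] at hXcard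
    simp only [Finset.card_empty, add_zero] at hXcard
    have : ((B \ X).card : ℝ) + X.card = p := by
      rw [hXcard]
      exact_mod_cast hBX
    simp only [Finset.sum_const, nsmul_eq_mul, mul_one]
    linarith
  · set x : ℝ := ((X ∩ S).card : ℝ) with hx
    have hxpos : 0 < x := by
      rw [hx]
      exact_mod_cast Finset.card_pos.mpr (Finset.nonempty_iff_ne_empty.mpr hXS)
    set K := ∑ i ∈ S \ X, k i with hKdef
    have hSQ : S ⊆ Q := Finset.sdiff_subset
    have hK0 : 0 ≤ K := Finset.sum_nonneg fun i hi => (hk i (hSQ (Finset.mem_sdiff.mp hi).1)).1.le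
    have hF : ∀ t, F k S t X = (∑ Y ∈ X ∩ S, g K x (t - k Y)) / x := fun t => by
      unfold F
      rw [if_neg hXS]
    have hSne : S.Nonempty := by
      obtain ⟨a, ha⟩ := Finset.nonempty_iff_ne_empty.mpr hXS
      exact ⟨a, (Finset.mem_inter.mp ha).2⟩
    obtain ⟨i0, hi0, hi0m⟩ := Finset.exists_max_image S k hSne
    set m := σ - k i0 with hm
    have hmpos : 0 < m := by
      have := (hk i0 (hSQ hi0)).2
      linarith
    have hyj : ∀ j ∈ B, σ - k j ≤ m := fun j hj => by
      have := hBk j hj i0 hi0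
      linarith
    have hF1 : ∀ t, F k S t X ≤ 1 := fun t => by
      rw [hF]
      rw [div_le_one hxpos]
      calc ∑ Y ∈ X ∩ S, g K x (t - k Y) ≤ ∑ Y ∈ X ∩ S, (1 : ℝ) :=
            Finset.sum_le_sum fun Y _ => g_le_one hK0 hxpos
        _ = x := by simp [hx]
    -- choose J
    have hle : (X ∩ S).card ≤ (B \ X).card := by omega
    obtain ⟨J, hJ, hJc⟩ := Finset.exists_subset_card_eq hle
    have hJx : (J.card : ℝ) = x := by rw [hJc]
    have hsplit : ∑ j ∈ B \ X, F k S (σ - k j) X
        ≤ ∑ j ∈ J, F k S (σ - k j) X + (((B \ X).card : ℝ) - x) := by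
      rw [← Finset.sum_sdiff hJ, add_comm]
      have h1 : ∑ j ∈ (B \ X) \ J, F k S (σ - k j) X ≤ ∑ j ∈ (B \ X) \ J, (1 : ℝ) :=
        Finset.sum_le_sum fun j _ => hF1 _
      have h2 : ∑ j ∈ (B \ X) \ J, (1 : ℝ) = ((B \ X).card : ℝ) - x := by
        rw [Finset.sum_const, nsmul_eq_mul, mul_one, Finset.card_sdiff_of_subset hJ,
          Nat.cast_sub (Finset.card_le_card hJ), hJx]
      linarith
    -- the main estimate
    set kX := ∑ Y ∈ X ∩ S, k Y with hkX
    set D := K + x * m with hD
    have hDpos : 0 < D := by positivity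
    have hJB : J ⊆ B := hJ.trans Finset.sdiff_subset
    have hJsum : ∑ j ∈ J, F k S (σ - k j) X ≤ x - (x * (∑ j ∈ J, (σ - k j)) - x * kX) / D := by
      have h1 : ∀ j ∈ J, F k S (σ - k j) X ≤ 1 - (x * (σ - k j) - kX) / D := by
        intro j hj
        rw [hF]
        have h2 : ∑ Y ∈ X ∩ S, g K x (σ - k j - k Y)
            ≤ ∑ Y ∈ X ∩ S, (1 - x * (σ - k j - k Y) / D) := by
          refine Finset.sum_le_sum fun Y hY => g_le_chord hK0 hxpos hmpos ?_
          have h3 := hyj j (hJB hj)
          have h4 := (hk Y (hSQ (Finset.mem_inter.mp hY).2)).1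
          linarith
        rw [div_le_iff₀ hxpos]
        refine h2.trans (le_of_eq ?_)
        rw [Finset.sum_sub_distrib, ← Finset.sum_div, ← Finset.mul_sum, Finset.sum_sub_distrib,
          ← hkX]
        simp only [Finset.sum_const, nsmul_eq_mul, ← hx, mul_one]
        field_simp
      refine (Finset.sum_le_sum h1).trans (le_of_eq ?_)
      rw [Finset.sum_sub_distrib, ← Finset.sum_div, Finset.sum_sub_distrib, ← Finset.mul_sum]
      simp only [Finset.sum_const, nsmul_eq_mul, mul_one, hJx]
    have hσsum : F k S σ X ≤ K / D := by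
      rw [hF, div_le_iff₀ hxpos]
      have h1 : ∑ Y ∈ X ∩ S, g K x (σ - k Y) ≤ ∑ Y ∈ X ∩ S, K / D := by
        refine Finset.sum_le_sum fun Y hY => ?_
        have h2 : m ≤ σ - k Y := by
          have := hi0m Y (Finset.mem_inter.mp hY).2
          linarith
        rw [g_of_pos (by linarith)]
        apply div_le_div_of_nonneg_left hK0 hDpos
        rw [hD]
        nlinarith
      refine h1.trans (le_of_eq ?_)
      simp only [Finset.sum_const, nsmul_eq_mul, ← hx]
      ring
    -- total cost
    have hcost : K + kX ≤ ∑ j ∈ J, (σ - k j) + (p - x) * m := by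
      have h1 : ∑ i ∈ S, k i = K + kX := by
        rw [hKdef, hkX, ← Finset.sum_union]
        · congr 1
          ext j
          simp only [Finset.mem_union, Finset.mem_sdiff, Finset.mem_inter]
          tauto
        · rw [Finset.disjoint_left]
          intro j hj hj'
          exact (Finset.mem_sdiff.mp hj).2 (Finset.mem_inter.mp hj').1
      have h2 : ∑ i ∈ S, k i + ∑ i ∈ B, k i = ∑ i ∈ Q, k i := Finset.sum_sdiff hBQ
      have h3 : ∑ j ∈ B, (σ - k j) = p * σ - ∑ j ∈ B, k j := by
        rw [Finset.sum_sub_distrib]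
        simp [hBp]
      have h4 : ∑ j ∈ B, (σ - k j) ≤ ∑ j ∈ J, (σ - k j) + (p - x) * m := by
        rw [← Finset.sum_sdiff hJB, add_comm]
        have h5 : ∑ j ∈ B \ J, (σ - k j) ≤ ∑ j ∈ B \ J, m :=
          Finset.sum_le_sum fun j hj => hyj j (Finset.mem_sdiff.mp hj).1
        have h6 : ∑ j ∈ B \ J, m = (p - x) * m := by
          rw [Finset.sum_const, nsmul_eq_mul, Finset.card_sdiff_of_subset hJB,
            Nat.cast_sub (Finset.card_le_card hJB), hJx, hBp]
        linarith
      linarith
    -- conclusion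
    have hmain : ∑ j ∈ J, F k S (σ - k j) X + p * F k S σ X ≤ p := by
      have hp0 : (0 : ℝ) ≤ p := Nat.cast_nonneg p
      have h1 : (p : ℝ) * F k S σ X ≤ p * (K / D) := mul_le_mul_of_nonneg_left hσsum hp0
      have h2 : x - (x * (∑ j ∈ J, (σ - k j)) - x * kX) / D + p * (K / D) ≤ p := by
        have h3 : x - (x * (∑ j ∈ J, (σ - k j)) - x * kX) / D + p * (K / D)
            = (x * D - (x * (∑ j ∈ J, (σ - k j)) - x * kX) + p * K) / D := by
          field_simp
        rw [h3, div_le_iff₀ hDpos, hD]
        have h4 := mul_le_mul_of_nonneg_left hcost hxpos.le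
        nlinarith
      linarith
    have hc1 : ((B \ X).card : ℝ) + (X ∩ B).card = p := by exact_mod_cast hBX
    have hc2 : (X.card : ℝ) = (X ∩ B).card + x := by
      rw [hx]
      exact_mod_cast hXcard
    linarith

/-- **Lemma K**, real costs. -/
theorem lemmaK_real (Q : Finset ι) (k : ι → ℝ) (p : ℕ) (σ : ℝ)
    (hk : ∀ i ∈ Q, 0 < k i ∧ k i < σ) (hK : ∑ i ∈ Q, k i ≤ p * σ)
    (w : Finset ι → ℝ) (hw : ∀ X ∈ Q.powerset, 0 ≤ w X)
    (hX : ∀ X ∈ Q.powerset, w X ≠ 0 → X.card ≤ p)
    (hZ : ∀ Z ⊆ Q, ∑ i ∈ Z, k i < σ →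
      ∑ X ∈ Q.powerset.filter (fun X => ¬ Disjoint X Z), w X ≤ 1) :
    ∑ X ∈ Q.powerset, w X * X.card ≤ 2 * p := by
  rcases le_or_gt Q.card p with hQp | hQp
  · -- few items
    have h1 : ∀ X ∈ Q.powerset, w X * X.card = ∑ i ∈ Q, (if i ∈ X then w X else 0) := by
      intro X hX
      rw [← Finset.sum_filter, Finset.filter_mem_eq_inter,
        Finset.inter_eq_right.mpr (Finset.mem_powerset.mp hX)]
      simp [mul_comm]
    rw [Finset.sum_congr rfl h1, Finset.sum_comm]
    have h2 : ∀ i ∈ Q, ∑ X ∈ Q.powerset, (if i ∈ X then w X else 0) ≤ 1 := by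
      intro i hi
      have h3 := hZ {i} (Finset.singleton_subset_iff.mpr hi) (by simpa using (hk i hi).2)
      rw [Finset.sum_filter] at h3
      refine le_trans (le_of_eq (Finset.sum_congr rfl fun X _ => ?_)) h3
      by_cases hiX : i ∈ X
      · rw [if_pos hiX, if_pos]
        simpa using hiX
      · rw [if_neg hiX, if_neg]
        simpa using hiX
    refine (Finset.sum_le_sum h2).trans ?_
    simp only [Finset.sum_const, nsmul_eq_mul, mul_one]
    have : (Q.card : ℝ) ≤ p := by exact_mod_cast hQp
    have hp0 : (0 : ℝ) ≤ p := Nat.cast_nonneg p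
    linarith
  · obtain ⟨B, hBQ, hBp, hBk⟩ := exists_top Q k p hQp.le
    set W := ∑ X ∈ Q.powerset, w X with hW
    have hmiss : ∀ Z ⊆ Q, ∑ i ∈ Z, k i < σ →
        W - 1 ≤ ∑ X ∈ Q.powerset.filter (fun X => Disjoint X Z), w X := by
      intro Z hZQ hZs
      have h1 := hZ Z hZQ hZs
      have h2 := Finset.sum_filter_add_sum_filter_not Q.powerset (fun X => Disjoint X Z) w
      linarith
    have hne : Q.Nonempty := by
      rw [← Finset.card_pos]
      omega
    have hσ : 0 < σ := by
      obtain ⟨i, hi⟩ := hne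
      linarith [(hk i hi).1, (hk i hi).2]
    have hSpos : ∀ i ∈ Q \ B, 0 < k i := fun i hi => (hk i (Finset.mem_sdiff.mp hi).1).1
    have hA : ∀ j ∈ B, W - 1 ≤ ∑ X ∈ Q.powerset.filter (fun X => Disjoint X {j}),
        w X * F k (Q \ B) (σ - k j) X := by
      intro j hj
      have hjQ := hBQ hj
      refine average k Q.powerset w hw (W - 1) _ (Q \ B) rfl hSpos {j} (σ - k j)
        (by linarith [(hk j hjQ).2]) fun Z hZS hZt => ?_
      refine hmiss _ (Finset.union_subset (Finset.singleton_subset_iff.mpr hjQ)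
        (hZS.trans Finset.sdiff_subset)) ?_
      rw [Finset.sum_union, Finset.sum_singleton]
      · linarith
      · rw [Finset.disjoint_singleton_left]
        exact fun h => (Finset.mem_sdiff.mp (hZS h)).2 hj
    have hE : W - 1 ≤ ∑ X ∈ Q.powerset.filter (fun X => Disjoint X ∅),
        w X * F k (Q \ B) σ X := by
      refine average k Q.powerset w hw (W - 1) _ (Q \ B) rfl hSpos ∅ σ hσ fun Z hZS hZt => ?_
      rw [Finset.empty_union]
      exact hmiss Z (hZS.trans Finset.sdiff_subset) hZt
    have hE' : W - 1 ≤ ∑ X ∈ Q.powerset, w X * F k (Q \ B) σ X := by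
      refine hE.trans (le_of_eq ?_)
      congr 1
      simp
    have hsumA : (p : ℝ) * (W - 1)
        ≤ ∑ X ∈ Q.powerset, w X * ∑ j ∈ B \ X, F k (Q \ B) (σ - k j) X := by
      have h1 := Finset.sum_le_sum hA
      rw [Finset.sum_const, nsmul_eq_mul, hBp] at h1
      refine h1.trans (le_of_eq ?_)
      have h2 : ∀ j ∈ B, ∑ X ∈ Q.powerset.filter (fun X => Disjoint X {j}),
          w X * F k (Q \ B) (σ - k j) X
          = ∑ X ∈ Q.powerset, (if j ∈ X then 0 else w X * F k (Q \ B) (σ - k j) X) := by
        intro j _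
        rw [Finset.sum_filter]
        refine Finset.sum_congr rfl fun X _ => ?_
        by_cases hjX : j ∈ X
        · rw [if_pos hjX, if_neg]
          simpa using hjX
        · rw [if_neg hjX, if_pos]
          simpa using hjX
      rw [Finset.sum_congr rfl h2, Finset.sum_comm]
      refine Finset.sum_congr rfl fun X _ => ?_
      rw [Finset.mul_sum, Finset.sdiff_eq_filter B X, Finset.sum_filter]
      refine Finset.sum_congr rfl fun j _ => ?_
      by_cases hjX : j ∈ X
      · rw [if_pos hjX, if_neg (not_not.mpr hjX)]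
      · rw [if_neg hjX, if_pos hjX]
    have hp0 : (0 : ℝ) ≤ p := Nat.cast_nonneg p
    have hsumE := mul_le_mul_of_nonneg_left hE' hp0
    have hpt : ∑ X ∈ Q.powerset, w X * ∑ j ∈ B \ X, F k (Q \ B) (σ - k j) X
        + p * ∑ X ∈ Q.powerset, w X * F k (Q \ B) σ X
        ≤ ∑ X ∈ Q.powerset, w X * (2 * p - X.card) := by
      rw [Finset.mul_sum, ← Finset.sum_add_distrib]
      refine Finset.sum_le_sum fun X hXQ => ?_
      by_cases hwX : w X = 0
      · simp [hwX]
      · have h1 := pointwise hBQ hBp hBk hk hK (Finset.mem_powerset.mp hXQ) (hX X hXQ hwX)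
        have h2 := mul_le_mul_of_nonneg_left h1 (hw X hXQ)
        linarith
    have hfin : ∑ X ∈ Q.powerset, w X * (2 * p - X.card)
        = 2 * p * W - ∑ X ∈ Q.powerset, w X * X.card := by
      rw [hW, Finset.mul_sum, ← Finset.sum_sub_distrib]
      exact Finset.sum_congr rfl fun X _ => by ring
    linarith

/-- **Lemma K**. -/
theorem lemmaK (Q : Finset ι) (k : ι → ℕ) (p s : ℕ) (hk : ∀ i ∈ Q, 1 ≤ k i ∧ k i ≤ s)
    (hK : ∑ i ∈ Q, k i ≤ p * (s + 1)) (w : Finset ι → ℝ) (hw : ∀ X ∈ Q.powerset, 0 ≤ w X)
    (hX : ∀ X ∈ Q.powerset, w X ≠ 0 → X.card ≤ p)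
    (hZ : ∀ Z ⊆ Q, ∑ i ∈ Z, k i ≤ s →
      ∑ X ∈ Q.powerset.filter (fun X => ¬ Disjoint X Z), w X ≤ 1) :
    ∑ X ∈ Q.powerset, w X * X.card ≤ 2 * p := by
  refine lemmaK_real Q (fun i => (k i : ℝ)) p ((s : ℝ) + 1) (fun i hi => ?_) ?_ w hw hX
    fun Z hZQ hZs => hZ Z hZQ ?_
  · have h1 := hk i hi
    constructor
    · exact_mod_cast h1.1
    · exact_mod_cast Nat.lt_succ_of_le h1.2
  · exact_mod_cast hK
  · have : ∑ i ∈ Z, k i < s + 1 := by exact_mod_cast hZs
    omega

end Pool.Agent.Helper68.LemmaK
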