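import Mathlib

set_option autoImplicit false

/-!
Nested lists of integers as polynomials in one, two or three variables, with a kernel-friendly
arithmetic and its correctness.
-/

namespace Pool.Agent.Helper68

section Generic

variable {α : Type}

/-- Evaluation of a list of coefficients (constant coefficient first). -/
def peval (ev : α → ℝ) (x : ℝ) : List α → ℝ
  | [] => 0
  | a :: p => ev a + x * peval ev x p

/-- Addition of coefficient lists. -/
def padd (add : α → α → α) : List α → List α → List α
  | [], q => q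
  | a :: p, [] => a :: p
  | a :: p, b :: q => add a b :: padd add p q

/-- Multiplication of coefficient lists. -/
def pmul (zero : α) (add mul : α → α → α) : List α → List α → List α
  | [], _ => []
  | a :: p, q => padd add (q.map (mul a)) (zero :: pmul zero add mul p q)

lemma peval_padd (ev : α → ℝ) (x : ℝ) (add : α → α → α)
    (hadd : ∀ a b, ev (add a b) = ev a + ev b) :
    ∀ p q : List α, peval ev x (padd add p q) = peval ev x p + peval ev x q
  | [], q => by simp [padd, peval]
  | a :: p, [] => by simp [padd, peval]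
  | a :: p, b :: q => by
    simp only [padd, peval, hadd, peval_padd ev x add hadd p q]
    ring

lemma peval_map (ev : α → ℝ) (x : ℝ) (mul : α → α → α)
    (hmul : ∀ a b, ev (mul a b) = ev a * ev b) (a : α) :
    ∀ q : List α, peval ev x (q.map (mul a)) = ev a * peval ev x q
  | [] => by simp [peval]
  | b :: q => by
    simp only [List.map_cons, peval, hmul, peval_map ev x mul hmul a q]
    ring

lemma peval_pmul (ev : α → ℝ) (x : ℝ) (zero : α) (add mul : α → α → α)
    (hzero : ev zero = 0)
    (hadd : ∀ a b, ev (add a b) = ev a + ev b)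
    (hmul : ∀ a b, ev (mul a b) = ev a * ev b) :
    ∀ p q : List α, peval ev x (pmul zero add mul p q) = peval ev x p * peval ev x q
  | [], q => by simp [pmul, peval]
  | a :: p, q => by
    simp only [pmul, peval_padd ev x add hadd, peval, peval_map ev x mul hmul, hzero,
      peval_pmul ev x zero add mul hzero hadd hmul p q]
    ring

/-- All entries are recognised as zero. -/
lemma peval_all_zero (ev : α → ℝ) (x : ℝ) (isz : α → Bool)
    (hz : ∀ a, isz a = true → ev a = 0) :
    ∀ p : List α, p.all isz = true → peval ev x p = 0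
  | [], _ => rfl
  | a :: p, h => by
    rw [List.all_cons, Bool.and_eq_true] at h
    rw [peval, hz a h.1, peval_all_zero ev x isz hz p h.2]
    simp

end Generic

/-- polynomials in one variable -/
abbrev P1 := List ℤ
/-- polynomials in two variables -/
abbrev P2 := List P1
/-- polynomials in three variables -/
abbrev P3 := List P2

/-- evaluation in one variable -/
noncomputable def ev1 (z : ℝ) : P1 → ℝ := peval (fun n : ℤ => (n : ℝ)) z
/-- evaluation in two variables -/
noncomputable def ev2 (y z : ℝ) : P2 → ℝ := peval (ev1 z) y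
/-- evaluation in three variables -/
noncomputable def ev3 (x y z : ℝ) : P3 → ℝ := peval (ev2 y z) x

def add1 : P1 → P1 → P1 := padd (fun a b => a + b)
def mul1 : P1 → P1 → P1 := pmul 0 (fun a b => a + b) (fun a b => a * b)
def add2 : P2 → P2 → P2 := padd add1
def mul2 : P2 → P2 → P2 := pmul [] add1 mul1
def add3 : P3 → P3 → P3 := padd add2
def mul3 : P3 → P3 → P3 := pmul [] add2 mul2
def isz1 (p : P1) : Bool := p.all (fun n => n == 0)
def isz2 (p : P2) : Bool := p.all isz1
def isz3 (p : P3) : Bool := p.all isz2
/-- constant polynomial -/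
def con3 (n : ℤ) : P3 := [[[n]]]

lemma ev1_add (z : ℝ) (p q : P1) : ev1 z (add1 p q) = ev1 z p + ev1 z q :=
  peval_padd _ z _ (by intro a b; push_cast; ring) p q
lemma ev1_mul (z : ℝ) (p q : P1) : ev1 z (mul1 p q) = ev1 z p * ev1 z q :=
  peval_pmul _ z _ _ _ (by simp) (by intro a b; push_cast; ring) (by intro a b; push_cast; ring) p q
lemma ev2_add (y z : ℝ) (p q : P2) : ev2 y z (add2 p q) = ev2 y z p + ev2 y z q :=
  peval_padd _ y _ (ev1_add z) p q
lemma ev2_mul (y z : ℝ) (p q : P2) : ev2 y z (mul2 p q) = ev2 y z p * ev2 y z q :=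
  peval_pmul (ev1 z) y _ _ _ rfl (ev1_add z) (ev1_mul z) p q
lemma ev3_add (x y z : ℝ) (p q : P3) : ev3 x y z (add3 p q) = ev3 x y z p + ev3 x y z q :=
  peval_padd _ x _ (ev2_add y z) p q
lemma ev3_mul (x y z : ℝ) (p q : P3) : ev3 x y z (mul3 p q) = ev3 x y z p * ev3 x y z q :=
  peval_pmul (ev2 y z) x _ _ _ rfl (ev2_add y z) (ev2_mul y z) p q
lemma ev1_isz (z : ℝ) (p : P1) (h : isz1 p = true) : ev1 z p = 0 :=
  peval_all_zero _ z _ (by intro a ha; simp at ha; simp [ha]) p h
lemma ev2_isz (y z : ℝ) (p : P2) (h : isz2 p = true) : ev2 y z p = 0 :=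
  peval_all_zero _ y _ (ev1_isz z) p h
lemma ev3_isz (x y z : ℝ) (p : P3) (h : isz3 p = true) : ev3 x y z p = 0 :=
  peval_all_zero _ x _ (ev2_isz y z) p h
lemma ev3_con (x y z : ℝ) (n : ℤ) : ev3 x y z (con3 n) = n := by
  simp [ev3, con3, ev2, ev1, peval]

end Pool.Agent.Helper68
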