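import Pool.Agent.Helper68.Three

set_option autoImplicit false

/-!
Summation of the triple inequality over all points of a configuration.
-/

namespace Pool.Agent.Helper68

/-! ### degenerate triples -/

lemma Qr_diag (x : ℝ) : ∀ m, Qr x x 1 m = (1 - x ^ 2) ^ m ∧
    Qr x x 1 (m + 1) = (1 - x ^ 2) ^ (m + 1)
  | 0 => by simp [Qr]; ring
  | m + 1 => by
    obtain ⟨h1, h2⟩ := Qr_diag x m
    refine ⟨h2, ?_⟩
    rw [Qr, h1, h2]
    ring

lemma Qr_one_left (x : ℝ) : ∀ m, Qr 1 x x (m + 1) = 0 ∧ Qr 1 x x (m + 2) = 0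
  | 0 => by simp [Qr]
  | m + 1 => by
    obtain ⟨h1, h2⟩ := Qr_one_left x m
    refine ⟨h2, ?_⟩
    rw [Qr, h2, h1]
    ring

lemma Qr_one_right (x : ℝ) : ∀ m, Qr x 1 x (m + 1) = 0 ∧ Qr x 1 x (m + 2) = 0
  | 0 => by simp [Qr]
  | m + 1 => by
    obtain ⟨h1, h2⟩ := Qr_one_right x m
    refine ⟨h2, ?_⟩
    rw [Qr, h2, h1]
    ring

lemma phiSum_diag (x : ℝ) : ∀ l : List P1, phiSum x x l = sq1 x l
  | [] => rfl
  | p :: l => by rw [phiSum, sq1, phiSum_diag x l]; ring

lemma Sr_diag (x : ℝ) : ∀ (L : List (List P1)) (m : ℕ),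
    Sr x x 1 m L = diagR x ((1 - x ^ 2) ^ m) L
  | [], _ => rfl
  | l :: L, m => by
    rw [Sr, diagR, phiSum_diag, (Qr_diag x m).1, Sr_diag x L (m + 1)]
    congr 2
    ring

lemma Sr_one_left (x : ℝ) : ∀ (L : List (List P1)) (m : ℕ), Sr 1 x x (m + 1) L = 0
  | [], _ => rfl
  | l :: L, m => by
    rw [Sr, (Qr_one_left x m).1, Sr_one_left x L (m + 1)]
    ring

lemma Sr_one_right (x : ℝ) : ∀ (L : List (List P1)) (m : ℕ), Sr x 1 x (m + 1) L = 0
  | [], _ => rfl
  | l :: L, m => by
    rw [Sr, (Qr_one_right x m).1, Sr_one_right x L (m + 1)]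
    ring

lemma phiSum_edge (x : ℝ) : ∀ l : List P1, phiSum 1 x l + phiSum x 1 l = edgeR x l
  | [] => by simp [phiSum, edgeR]
  | p :: l => by
    rw [phiSum, phiSum, edgeR, ← phiSum_edge x l]; ring

/-- `S(x,x,1) + S(1,x,x) + S(x,1,x) = g(x)` -/
lemma S_degenerate (c : Cert) (x : ℝ) : c.S x x 1 + c.S 1 x x + c.S x 1 x = c.g x := by
  unfold Cert.S Cert.g
  rw [Sr_diag]
  cases c.phi with
  | nil => simp [Sr, edgeR]
  | cons l L =>
    rw [Sr, Sr, Sr_one_left, Sr_one_right]
    simp only [Qr, List.headD_cons, pow_zero]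
    rw [← phiSum_edge]
    ring

/-- symmetry of `S` in the first two arguments -/
lemma Qr_symm (u v t : ℝ) : ∀ m, Qr u v t m = Qr v u t m ∧ Qr u v t (m + 1) = Qr v u t (m + 1)
  | 0 => by simp [Qr]; ring
  | m + 1 => by
    obtain ⟨h1, h2⟩ := Qr_symm u v t m
    refine ⟨h2, ?_⟩
    rw [Qr, Qr, h1, h2]
    ring

lemma phiSum_symm (u v : ℝ) : ∀ l : List P1, phiSum u v l = phiSum v u l
  | [] => rfl
  | p :: l => by rw [phiSum, phiSum, phiSum_symm u v l]; ring

lemma Sr_symm (u v t : ℝ) : ∀ (L : List (List P1)) (m : ℕ), Sr u v t m L = Sr v u t m L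
  | [], _ => rfl
  | l :: L, m => by rw [Sr, Sr, (Qr_symm u v t m).1, phiSum_symm, Sr_symm u v t L (m + 1)]

/-! ### splitting a triple sum -/

section Split

variable {ι : Type} [Fintype ι] [DecidableEq ι]

/-- indicator of three distinct indices -/
def dis (i j k : ι) : ℝ := if i ≠ j ∧ i ≠ k ∧ j ≠ k then 1 else 0

lemma sum_split (f : ι → ι → ι → ℝ) :
    ∑ i, ∑ j, ∑ k, f i j k =
      ∑ i, ∑ j, ∑ k, dis i j k * f i j k +
      ∑ i, ∑ j, (if i ≠ j then (f i j j + f i i j + f i j i) else 0) + ∑ i, f i i i := by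
  have h : ∀ i j, ∑ k, f i j k = ∑ k, dis i j k * f i j k +
      (if i ≠ j then f i j j + f i j i else 0) + (if i = j then ∑ k, f i i k else 0) := by
    intro i j
    by_cases hij : i = j
    · subst hij
      simp [dis]
    · simp only [hij, ne_eq, not_false_eq_true, if_true, if_false, add_zero]
      have : ∀ k, f i j k = dis i j k * f i j k + ((if k = j then f i j j else 0) +
          (if k = i then f i j i else 0)) := by
        intro k
        unfold dis
        by_cases h1 : k = i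
        · subst h1
          have : k ≠ j := hij
          simp [this]
        · by_cases h2 : k = j
          · subst h2
            simp [h1]
          · have h3 : i ≠ k := fun h => h1 h.symm
            have h4 : j ≠ k := fun h => h2 h.symm
            simp [hij, h3, h4, h1, h2]
      calc ∑ k, f i j k = ∑ k, (dis i j k * f i j k + ((if k = j then f i j j else 0) +
          (if k = i then f i j i else 0))) := Finset.sum_congr rfl fun k _ => this k
        _ = _ := by
          rw [Finset.sum_add_distrib, Finset.sum_add_distrib]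
          simp
  have h2 : ∀ i, ∑ j, (if i = j then ∑ k, f i i k else 0) = ∑ k, f i i k := by
    intro i
    simp
  have h3 : ∀ i, ∑ k, f i i k = ∑ j, (if i ≠ j then f i i j else 0) + f i i i := by
    intro i
    have : ∀ k, f i i k = (if i ≠ k then f i i k else 0) + (if i = k then f i i i else 0) := by
      intro k
      by_cases hk : i = k
      · subst hk; simp
      · simp [hk]
    calc ∑ k, f i i k = ∑ k, ((if i ≠ k then f i i k else 0) + (if i = k then f i i i else 0)) :=
          Finset.sum_congr rfl fun k _ => this k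
      _ = _ := by
        rw [Finset.sum_add_distrib]
        simp
  calc ∑ i, ∑ j, ∑ k, f i j k
      = ∑ i, ∑ j, (∑ k, dis i j k * f i j k +
      (if i ≠ j then f i j j + f i j i else 0) + (if i = j then ∑ k, f i i k else 0)) :=
        Finset.sum_congr rfl fun i _ => Finset.sum_congr rfl fun j _ => h i j
    _ = ∑ i, (∑ j, ∑ k, dis i j k * f i j k + ∑ j, (if i ≠ j then f i j j + f i j i else 0) +
          (∑ j, (if i ≠ j then f i i j else 0) + f i i i)) := by
        refine Finset.sum_congr rfl fun i _ => ?_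
        rw [Finset.sum_add_distrib, Finset.sum_add_distrib, h2, h3]
    _ = _ := by
        rw [Finset.sum_add_distrib, Finset.sum_add_distrib, Finset.sum_add_distrib]
        have : ∀ i, ∑ j, (if i ≠ j then (f i j j + f i i j + f i j i) else 0) =
            ∑ j, (if i ≠ j then f i j j + f i j i else 0) +
              ∑ j, (if i ≠ j then f i i j else 0) := by
          intro i
          rw [← Finset.sum_add_distrib]
          refine Finset.sum_congr rfl fun j _ => ?_
          split_ifs <;> ring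
        rw [Finset.sum_congr rfl fun i _ => this i, Finset.sum_add_distrib]
        ring

/-- cyclic reindexing of the distinct sum -/
lemma dis_cycle (f : ι → ι → ι → ℝ) :
    ∑ i, ∑ j, ∑ k, dis i j k * f j k i = ∑ i, ∑ j, ∑ k, dis i j k * f i j k := by
  have h : ∀ i j k : ι, dis i j k = dis j k i := by
    intro i j k
    unfold dis
    congr 1
    apply propext
    constructor
    · rintro ⟨a, b, c⟩; exact ⟨c, fun h => a h.symm, fun h => b h.symm⟩
    · rintro ⟨a, b, c⟩; exact ⟨fun h => b h.symm, fun h => c h.symm, a⟩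
  calc ∑ i, ∑ j, ∑ k, dis i j k * f j k i = ∑ i, ∑ j, ∑ k, dis j k i * f j k i :=
        Finset.sum_congr rfl fun i _ => Finset.sum_congr rfl fun j _ =>
          Finset.sum_congr rfl fun k _ => by rw [h i j k]
    _ = ∑ j, ∑ i, ∑ k, dis j k i * f j k i := Finset.sum_comm
    _ = ∑ j, ∑ k, ∑ i, dis j k i * f j k i :=
        Finset.sum_congr rfl fun j _ => Finset.sum_comm
    _ = _ := rfl

lemma dis_swap (f : ι → ι → ι → ℝ) :
    ∑ i, ∑ j, ∑ k, dis i j k * f i k j = ∑ i, ∑ j, ∑ k, dis i j k * f i j k := by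
  have h : ∀ i j k : ι, dis i j k = dis i k j := by
    intro i j k
    unfold dis
    congr 1
    apply propext
    constructor
    · rintro ⟨a, b, c⟩; exact ⟨b, a, fun h => c h.symm⟩
    · rintro ⟨a, b, c⟩; exact ⟨b, a, fun h => c h.symm⟩
  calc ∑ i, ∑ j, ∑ k, dis i j k * f i k j = ∑ i, ∑ j, ∑ k, dis i k j * f i k j :=
        Finset.sum_congr rfl fun i _ => Finset.sum_congr rfl fun j _ =>
          Finset.sum_congr rfl fun k _ => by rw [h i j k]
    _ = _ := Finset.sum_congr rfl fun i _ => Finset.sum_comm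

lemma dis_count (g : ι → ι → ℝ) :
    ∑ i, ∑ j, ∑ k, dis i j k * g i j =
      ((Fintype.card ι : ℝ) - 2) * ∑ i, ∑ j, (if i ≠ j then g i j else 0) := by
  rw [Finset.mul_sum]
  refine Finset.sum_congr rfl fun i _ => ?_
  rw [Finset.mul_sum]
  refine Finset.sum_congr rfl fun j _ => ?_
  by_cases hij : i = j
  · subst hij
    simp [dis]
  · simp only [ne_eq, hij, not_false_eq_true, if_true]
    rw [← Finset.sum_mul]
    congr 1
    have : ∀ k, dis i j k = 1 - ((if k = i then (1 : ℝ) else 0) + (if k = j then 1 else 0)) := by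
      intro k
      unfold dis
      by_cases h1 : k = i
      · subst h1
        simp [hij]
      · by_cases h2 : k = j
        · subst h2
          simp [h1]
        · have h3 : i ≠ k := fun h => h1 h.symm
          have h4 : j ≠ k := fun h => h2 h.symm
          simp [hij, h3, h4, h1, h2]
    rw [Finset.sum_congr rfl fun k _ => this k, Finset.sum_sub_distrib, Finset.sum_add_distrib]
    simp
    norm_num

end Split

/-- The summed inequality: a lower bound for the energy of the configuration. -/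
theorem energy_bound {ι : Type} [Fintype ι] [DecidableEq ι] (c : Cert)
    (h1 : c.checkId = true) (h2 : c.checkRem = true) (hN : Fintype.card ι = 13)
    (x : ι → E3) (hx : ∀ j, ‖x j‖ = 1)
    (hs : ∀ i j, i ≠ j → c.sd * inner ℝ (x i) (x j) ≤ (c.sn : ℝ)) :
    2 * (1716 * (c.delta : ℝ) - 13 * c.S 1 1 1) ≤
      ∑ i, ∑ j, (if i ≠ j then (inner ℝ (x i) (x j) + 1) * (2 * inner ℝ (x i) (x j) - 1) *
        sq1 (inner ℝ (x i) (x j)) c.psi else 0) := by
  set t : ι → ι → ℝ := fun i j => inner ℝ (x i) (x j) with ht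
  have tsymm : ∀ i j, t i j = t j i := fun i j => (real_inner_comm _ _)
  have tii : ∀ i, t i i = 1 := by
    intro i
    simp only [ht]
    rw [real_inner_self_eq_norm_sq, hx i]
    norm_num
  set f : ι → ι → ι → ℝ := fun i j k => c.S (t i j) (t i k) (t j k) with hf
  set F := ∑ i, ∑ j, ∑ k, dis i j k * f i j k with hF
  have hA : 0 ≤ ∑ i, ∑ j, ∑ k, f i j k := triple_sum_nonneg c x hx
  rw [sum_split] at hA
  have hB : ∑ i, ∑ j, (if i ≠ j then (f i j j + f i i j + f i j i) else 0) =
      ∑ i, ∑ j, (if i ≠ j then c.g (t i j) else 0) := by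
    refine Finset.sum_congr rfl fun i _ => Finset.sum_congr rfl fun j _ => ?_
    congr 1
    simp only [hf]
    rw [tii, tii, tsymm j i, ← S_degenerate]
  have hC : ∑ i, f i i i = 13 * c.S 1 1 1 := by
    simp only [hf, tii]
    rw [Finset.sum_const, Finset.card_univ, hN]
    simp
  rw [hB, hC] at hA
  -- the distinct triples
  have hD : ∑ i, ∑ j, ∑ k, dis i j k * (22 * (3 * c.delta + f i j k + f j k i + f k i j) +
      c.G2 (t i j) + c.G2 (t i k) + c.G2 (t j k)) ≤ 0 := by
    refine Finset.sum_nonpos fun i _ => Finset.sum_nonpos fun j _ =>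
      Finset.sum_nonpos fun k _ => ?_
    by_cases hd : i ≠ j ∧ i ≠ k ∧ j ≠ k
    · have hdis : dis i j k = 1 := by unfold dis; rw [if_pos hd]
      rw [hdis, one_mul]
      have hdom : ∀ a b, a ≠ b → 0 ≤ (t a b + 1) * (c.sn - c.sd * t a b) := by
        intro a b hab
        have l1 : -1 ≤ t a b := by
          have := abs_real_inner_le_norm (x a) (x b)
          rw [hx a, hx b] at this
          have := (abs_le.mp this).1
          simp only [ht]
          linarith
        exact mul_nonneg (by linarith) (by linarith [hs a b hab])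
      have hg := gram_nonneg (x i) (x j) (x k) (hx i) (hx j) (hx k)
      have := c.triple h1 h2 (t i j) (t i k) (t j k) (hdom i j hd.1) (hdom i k hd.2.1)
        (hdom j k hd.2.2) (by simp only [ht]; linarith [hg])
      have e1 : f j k i = c.S (t j k) (t i j) (t i k) := by
        simp only [hf]; rw [tsymm j i, tsymm k i]
      have e2 : f k i j = c.S (t i k) (t j k) (t i j) := by
        simp only [hf]; rw [tsymm k i, tsymm k j]
      rw [e1, e2]
      exact this
    · have hdis : dis i j k = 0 := by unfold dis; rw [if_neg hd]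
      rw [hdis, zero_mul]
  have hE : ∑ i, ∑ j, ∑ k, dis i j k * (22 * (3 * c.delta + f i j k + f j k i + f k i j) +
      c.G2 (t i j) + c.G2 (t i k) + c.G2 (t j k)) =
      66 * c.delta * (∑ i : ι, ∑ j : ι, ∑ k : ι, dis i j k * 1) + 22 * F +
      22 * (∑ i, ∑ j, ∑ k, dis i j k * f j k i) + 22 * (∑ i, ∑ j, ∑ k, dis i j k * f k i j) +
      (∑ i, ∑ j, ∑ k, dis i j k * c.G2 (t i j)) + (∑ i, ∑ j, ∑ k, dis i j k * c.G2 (t i k)) +
      (∑ i, ∑ j, ∑ k, dis i j k * c.G2 (t j k)) := by
    rw [hF]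
    simp only [Finset.mul_sum, ← Finset.sum_add_distrib]
    refine Finset.sum_congr rfl fun i _ => Finset.sum_congr rfl fun j _ =>
      Finset.sum_congr rfl fun k _ => ?_
    ring
  have c1 : ∑ i, ∑ j, ∑ k, dis i j k * f j k i = F := dis_cycle f
  have c2 : ∑ i, ∑ j, ∑ k, dis i j k * f k i j = F := by
    rw [← dis_cycle (fun i j k => f k i j)]
  have c3 : ∑ i, ∑ j, ∑ k, dis i j k * c.G2 (t i k) =
      ∑ i, ∑ j, ∑ k, dis i j k * c.G2 (t i j) := dis_swap (fun i j _ => c.G2 (t i j))
  have c4 : ∑ i, ∑ j, ∑ k, dis i j k * c.G2 (t j k) =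
      ∑ i, ∑ j, ∑ k, dis i j k * c.G2 (t i j) := dis_cycle (fun i j _ => c.G2 (t i j))
  have c5 : ∑ i, ∑ j, ∑ k, dis i j k * c.G2 (t i j) =
      11 * ∑ i, ∑ j, (if i ≠ j then c.G2 (t i j) else 0) := by
    rw [dis_count (fun i j => c.G2 (t i j)), hN]
    norm_num
  have c6 : ∑ i : ι, ∑ j : ι, ∑ k : ι, dis i j k * 1 = 1716 := by
    rw [dis_count (fun _ _ => 1), hN]
    have : ∑ i : ι, ∑ j : ι, (if i ≠ j then (1 : ℝ) else 0) = 156 := by
      have : ∀ i : ι, ∑ j : ι, (if i ≠ j then (1 : ℝ) else 0) = 12 := by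
        intro i
        have : ∀ j : ι, (if i ≠ j then (1 : ℝ) else 0) = 1 - (if i = j then 1 else 0) := by
          intro j
          by_cases h : i = j <;> simp [h]
        rw [Finset.sum_congr rfl fun j _ => this j, Finset.sum_sub_distrib]
        simp [hN]
        norm_num
      rw [Finset.sum_congr rfl fun i _ => this i, Finset.sum_const, Finset.card_univ, hN]
      norm_num
    rw [this]
    norm_num
  rw [hE, c1, c2, c3, c4, c5, c6] at hD
  have hG : ∑ i, ∑ j, (if i ≠ j then c.G2 (t i j) else 0) =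
      2 * (∑ i, ∑ j, (if i ≠ j then c.g (t i j) else 0)) -
      ∑ i, ∑ j, (if i ≠ j then (t i j + 1) * (2 * t i j - 1) * sq1 (t i j) c.psi else 0) := by
    simp only [Finset.mul_sum, ← Finset.sum_sub_distrib]
    refine Finset.sum_congr rfl fun i _ => Finset.sum_congr rfl fun j _ => ?_
    split_ifs
    · rw [Cert.G2]; ring
    · ring
  rw [hG] at hD
  linarith

/-! ### the univariate check -/

/-- Homogenised polynomial `(2 sd)^len * r(t)` for `t = a/2 + b s`, `a + b = 1`,
as a polynomial in `(a, b)` (outer variable `a`). -/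
def homP (M L : P2) : P1 → P2 × P2
  | [] => ([], [[1]])
  | r :: p => let q := homP M L p
    let m := mul2 M q.2
    (add2 (mul2 [[r]] m) (mul2 L q.1), m)

lemma ev2_single (a b : ℝ) (n : ℤ) : ev2 a b [[n]] = n := by simp [ev2, ev1, peval]

lemma ev2_homP (a b t : ℝ) (K : ℝ) (M L : P2) (hM : ev2 a b M = K) (hL : ev2 a b L = K * t) :
    ∀ p : P1, ev2 a b (homP M L p).1 = K ^ p.length * ev1 t p ∧
      ev2 a b (homP M L p).2 = K ^ p.length
  | [] => by
    constructor
    · simp [homP, ev2, peval, ev1]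
    · simp [homP, ev2, peval, ev1]
  | r :: p => by
    obtain ⟨h1, h2⟩ := ev2_homP a b t K M L hM hL p
    have h3 : ev2 a b (homP M L (r :: p)).2 = K ^ (r :: p).length := by
      simp only [homP]
      rw [ev2_mul, hM, h2, List.length_cons]
      ring
    refine ⟨?_, h3⟩
    simp only [homP]
    rw [ev2_add, ev2_mul, ev2_mul, ev2_mul, ev2_single, h1, h2, hM, hL, List.length_cons]
    have : ev1 t (r :: p) = r + t * ev1 t p := rfl
    rw [this]
    ring

def nonneg2 (p : P2) : Bool := p.all fun q => q.all fun n => decide (0 ≤ n)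

lemma ev1_nonneg_of (z : ℝ) (hz : 0 ≤ z) : ∀ p : P1, (p.all fun n => decide (0 ≤ n)) = true →
    0 ≤ ev1 z p
  | [], _ => le_refl _
  | a :: p, h => by
    rw [List.all_cons, Bool.and_eq_true] at h
    have : ev1 z (a :: p) = a + z * ev1 z p := rfl
    rw [this]
    have h1 : (0 : ℝ) ≤ a := by exact_mod_cast of_decide_eq_true h.1
    exact add_nonneg h1 (mul_nonneg hz (ev1_nonneg_of z hz p h.2))

lemma ev2_nonneg_of (y z : ℝ) (hy : 0 ≤ y) (hz : 0 ≤ z) : ∀ p : P2, nonneg2 p = true →
    0 ≤ ev2 y z p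
  | [], _ => le_refl _
  | a :: p, h => by
    rw [nonneg2, List.all_cons, Bool.and_eq_true] at h
    have : ev2 y z (a :: p) = ev1 z a + y * ev2 y z p := rfl
    rw [this]
    exact add_nonneg (ev1_nonneg_of z hz a h.1) (mul_nonneg hy (ev2_nonneg_of y z hy hz p h.2))

/-- the polynomial `2 sc - (x+1) ∑ ψ_k(x)^2` -/
def Cert.rP (c : Cert) : P1 := add1 [2 * c.sc] (mul1 [-1, -1] (sq1P c.psi))

/-- `(x+1) ∑ ψ_k(x)^2 ≤ 2 sc` on `[1/2, sn/sd]`: all coefficients of the homogenised polynomial
are nonnegative; also `2 sn ≥ sd`. -/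
def Cert.checkUni (c : Cert) : Bool :=
  nonneg2 (homP [[0, 2 * c.sd], [2 * c.sd]] [[0, 2 * c.sn], [c.sd]] c.rP).1 &&
    decide (c.sd < 2 * c.sn) && decide (0 < c.sd)

lemma Cert.uni (c : Cert) (h : c.checkUni = true) (t : ℝ) (h1 : 1 / 2 ≤ t)
    (h2 : c.sd * t ≤ c.sn) : (t + 1) * sq1 t c.psi ≤ 2 * c.sc := by
  rw [Cert.checkUni, Bool.and_eq_true, Bool.and_eq_true, decide_eq_true_eq,
    decide_eq_true_eq] at h
  have hsd : (0 : ℝ) < c.sd := by exact_mod_cast h.2
  have hsn : (c.sd : ℝ) < 2 * c.sn := by exact_mod_cast h.1.2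
  -- t = a/2 + b s
  set b : ℝ := (2 * c.sd * t - c.sd) / (2 * c.sn - c.sd) with hb
  have hden : (0 : ℝ) < 2 * c.sn - c.sd := by linarith
  have hb0 : 0 ≤ b := by
    apply div_nonneg _ hden.le
    nlinarith
  have hb1 : b ≤ 1 := by
    rw [hb, div_le_one hden]
    linarith
  have hbe : b * (2 * c.sn - c.sd) = 2 * c.sd * t - c.sd := by
    rw [hb]; field_simp
  have hM : ev2 (1 - b) b [[0, 2 * c.sd], [2 * c.sd]] = 2 * c.sd := by
    simp [ev2, ev1, peval]; ring
  have hL : ev2 (1 - b) b [[0, 2 * c.sn], [c.sd]] = 2 * c.sd * t := by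
    simp [ev2, ev1, peval]
    nlinarith [hbe]
  have h3 := (ev2_homP (1 - b) b t (2 * c.sd) _ _ hM hL c.rP).1
  have h4 := ev2_nonneg_of (1 - b) b (by linarith) hb0 _ h.1.1
  rw [h3] at h4
  have h5 : (0 : ℝ) < (2 * c.sd) ^ (c.rP).length := by positivity
  have h6 : 0 ≤ ev1 t c.rP := by
    by_contra hc
    push Not at hc
    have := mul_neg_of_pos_of_neg h5 hc
    linarith
  rw [Cert.rP, ev1_add, ev1_mul, ev1_sq1P, ev1_single] at h6
  have h7 : ev1 t [-1, -1] = -(t + 1) := by
    show ((-1 : ℤ) : ℝ) + t * (((-1 : ℤ) : ℝ) + t * 0) = -(t + 1)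
    push_cast
    ring
  rw [h7] at h6
  push_cast at h6
  linarith

/-- Energy bound in terms of the positive parts. -/
theorem energy_bound' {ι : Type} [Fintype ι] [DecidableEq ι] (c : Cert)
    (h1 : c.checkId = true) (h2 : c.checkRem = true) (h3 : c.checkUni = true)
    (hN : Fintype.card ι = 13)
    (x : ι → E3) (hx : ∀ j, ‖x j‖ = 1)
    (hs : ∀ i j, i ≠ j → c.sd * inner ℝ (x i) (x j) ≤ (c.sn : ℝ)) :
    1716 * (c.delta : ℝ) - 13 * c.S 1 1 1 ≤
      c.sc * ∑ i, ∑ j, (if i ≠ j ∧ 1 / 2 < (inner ℝ (x i) (x j) : ℝ) then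
        (2 * inner ℝ (x i) (x j) - 1) else 0) := by
  have h := energy_bound c h1 h2 hN x hx hs
  have hle : ∑ i, ∑ j, (if i ≠ j then (inner ℝ (x i) (x j) + 1) *
      (2 * inner ℝ (x i) (x j) - 1) * sq1 (inner ℝ (x i) (x j)) c.psi else 0) ≤
      ∑ i, ∑ j, (2 * c.sc * (if i ≠ j ∧ 1 / 2 < (inner ℝ (x i) (x j) : ℝ) then
        (2 * inner ℝ (x i) (x j) - 1) else 0)) := by
    refine Finset.sum_le_sum fun i _ => Finset.sum_le_sum fun j _ => ?_
    by_cases hij : i = j
    · subst hij; simp
    · have l1 : -1 ≤ (inner ℝ (x i) (x j) : ℝ) := by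
        have := abs_real_inner_le_norm (x i) (x j)
        rw [hx i, hx j] at this
        have := (abs_le.mp this).1
        linarith
      set t : ℝ := inner ℝ (x i) (x j) with ht
      have hq := sq1_nonneg t c.psi
      by_cases hh : 1 / 2 < t
      · have hu := c.uni h3 t hh.le (hs i j hij)
        simp only [ne_eq, hij, not_false_eq_true, if_true, hh, and_self]
        have : 0 ≤ 2 * t - 1 := by linarith
        nlinarith [mul_le_mul_of_nonneg_left hu this]
      · simp only [ne_eq, hij, not_false_eq_true, if_true, hh, and_false, if_false, mul_zero]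
        push Not at hh
        have e1 : 0 ≤ (t + 1) * (1 - 2 * t) := mul_nonneg (by linarith) (by linarith)
        nlinarith [mul_nonneg e1 hq]
  have h4 := h.trans hle
  simp only [← Finset.mul_sum] at h4
  linarith

end Pool.Agent.Helper68
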