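import Pool.Agent.Helper68.CertDef

set_option autoImplicit false

/-!
Positivity of the three-point kernels on the sphere, and summation.
-/

namespace Pool.Agent.Helper68

open Complex ComplexConjugate

/-- The kernel `Q_m` is the real part of `w^m conj(w')^m`. -/
lemma Qr_eq (u v t : ℝ) (w w' : ℂ) (hw : Complex.normSq w = 1 - u ^ 2)
    (hw' : Complex.normSq w' = 1 - v ^ 2) (ht : (w * conj w').re = t - u * v) :
    ∀ m : ℕ, Qr u v t m = ((w * conj w') ^ m).re ∧ Qr u v t (m + 1) = ((w * conj w') ^ (m + 1)).re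
  | 0 => by simp [Qr, ← ht]
  | m + 1 => by
    obtain ⟨h1, h2⟩ := Qr_eq u v t w w' hw hw' ht m
    refine ⟨h2, ?_⟩
    set c := w * conj w' with hc
    have hn : Complex.normSq c = (1 - u ^ 2) * (1 - v ^ 2) := by
      rw [hc, Complex.normSq_mul, Complex.normSq_conj, hw, hw']
    rw [Qr, h1, h2, ← ht, ← hn]
    have e1 : c ^ (m + 1 + 1) = (2 * (c.re : ℂ)) * c ^ (m + 1) - (Complex.normSq c : ℂ) * c ^ m := by
      have h3 : (2 * (c.re : ℂ)) = c + conj c := by
        rw [Complex.add_conj]; push_cast; ring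
      have h4 : (Complex.normSq c : ℂ) = c * conj c := (Complex.mul_conj c).symm
      rw [h3, h4]
      ring
    rw [e1]
    simp only [Complex.sub_re, Complex.mul_re, Complex.ofReal_re, Complex.ofReal_im]
    simp

lemma kernel_nonneg {ι : Type} [Fintype ι] (u : ι → ℝ) (w : ι → ℂ) (f : ι → ℝ) (m : ℕ) :
    0 ≤ ∑ j, ∑ k, f j * f k * ((w j * conj (w k)) ^ m).re := by
  have h : ∑ j, ∑ k, f j * f k * ((w j * conj (w k)) ^ m).re =
      Complex.normSq (∑ j, (f j : ℂ) * w j ^ m) := by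
    have h1 : (Complex.normSq (∑ j, (f j : ℂ) * w j ^ m) : ℂ) =
        ∑ j, ∑ k, (f j : ℂ) * f k * (w j * conj (w k)) ^ m := by
      rw [← Complex.mul_conj, map_sum, Finset.sum_mul_sum]
      refine Finset.sum_congr rfl fun j _ => Finset.sum_congr rfl fun k _ => ?_
      rw [map_mul, Complex.conj_ofReal, map_pow, mul_pow]
      ring
    have h2 := congrArg Complex.re h1
    rw [Complex.ofReal_re] at h2
    rw [h2, Complex.re_sum]
    refine Finset.sum_congr rfl fun j _ => ?_
    rw [Complex.re_sum]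
    refine Finset.sum_congr rfl fun k _ => ?_
    have : (f j : ℂ) * f k = ((f j * f k : ℝ) : ℂ) := by push_cast; ring
    rw [this, Complex.re_ofReal_mul]
  rw [h]
  exact Complex.normSq_nonneg _

lemma phiSum_kernel_nonneg {ι : Type} [Fintype ι] (u : ι → ℝ) (w : ι → ℂ) (m : ℕ) :
    ∀ l : List P1, 0 ≤ ∑ j, ∑ k, phiSum (u j) (u k) l * ((w j * conj (w k)) ^ m).re
  | [] => by simp [phiSum]
  | p :: l => by
    have h1 := kernel_nonneg u w (fun j => ev1 (u j) p) m
    have h2 := phiSum_kernel_nonneg u w m l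
    have h3 : ∑ j, ∑ k, phiSum (u j) (u k) (p :: l) * ((w j * conj (w k)) ^ m).re =
        ∑ j, ∑ k, ev1 (u j) p * ev1 (u k) p * ((w j * conj (w k)) ^ m).re +
        ∑ j, ∑ k, phiSum (u j) (u k) l * ((w j * conj (w k)) ^ m).re := by
      rw [← Finset.sum_add_distrib]
      refine Finset.sum_congr rfl fun j _ => ?_
      rw [← Finset.sum_add_distrib]
      refine Finset.sum_congr rfl fun k _ => ?_
      rw [phiSum]
      ring
    rw [h3]
    exact add_nonneg h1 h2

lemma Sr_nonneg {ι : Type} [Fintype ι] (u : ι → ℝ) (w : ι → ℂ) (t : ι → ι → ℝ)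
    (hw : ∀ j, Complex.normSq (w j) = 1 - u j ^ 2)
    (ht : ∀ j k, (w j * conj (w k)).re = t j k - u j * u k) :
    ∀ (L : List (List P1)) (m : ℕ), 0 ≤ ∑ j, ∑ k, Sr (u j) (u k) (t j k) m L
  | [], m => by simp [Sr]
  | l :: L, m => by
    have h1 := phiSum_kernel_nonneg u w m l
    have h2 := Sr_nonneg u w t hw ht L (m + 1)
    have h3 : ∑ j, ∑ k, Sr (u j) (u k) (t j k) m (l :: L) =
        ∑ j, ∑ k, phiSum (u j) (u k) l * ((w j * conj (w k)) ^ m).re +
        ∑ j, ∑ k, Sr (u j) (u k) (t j k) (m + 1) L := by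
      rw [← Finset.sum_add_distrib]
      refine Finset.sum_congr rfl fun j _ => ?_
      rw [← Finset.sum_add_distrib]
      refine Finset.sum_congr rfl fun k _ => ?_
      rw [Sr, (Qr_eq _ _ _ _ _ (hw j) (hw k) (ht j k) m).1]
    rw [h3]
    exact add_nonneg h1 h2

/-! ### unit vectors in three-space -/

/-- euclidean three-space -/
abbrev E3 := EuclideanSpace ℝ (Fin 3)

/-- For a unit vector `e` the other unit vectors are described by their height `⟨e,x⟩` and a
complex number. -/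
lemma exists_frame {ι : Type} (e : E3) (he : ‖e‖ = 1) (x : ι → E3) (hx : ∀ j, ‖x j‖ = 1) :
    ∃ w : ι → ℂ, (∀ j, Complex.normSq (w j) = 1 - inner ℝ e (x j) ^ 2) ∧
      ∀ j k, (w j * conj (w k)).re =
        inner ℝ (x j) (x k) - inner ℝ e (x j) * inner ℝ e (x k) := by
  obtain ⟨b, hb⟩ := Orthonormal.exists_orthonormalBasis_extension_of_card_eq (𝕜 := ℝ) (E := E3)
    (ι := Fin 3) (by simp) (v := fun _ => e) (s := {0}) (by
      constructor
      · intro i
        simpa using he
      · intro i j hij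
        exact absurd (Subsingleton.elim i j) hij)
  have hb0 : b 0 = e := hb 0 (by simp)
  have key : ∀ y z : E3, inner ℝ y z = inner ℝ e y * inner ℝ e z +
      (inner ℝ (b 1) y * inner ℝ (b 1) z + inner ℝ (b 2) y * inner ℝ (b 2) z) := by
    intro y z
    have := b.sum_inner_mul_inner y z
    rw [Fin.sum_univ_three, hb0] at this
    rw [← this, real_inner_comm e y, real_inner_comm (b 1) y, real_inner_comm (b 2) y]
    ring
  refine ⟨fun j => ⟨inner ℝ (b 1) (x j), inner ℝ (b 2) (x j)⟩, ?_, ?_⟩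
  · intro j
    have h1 := key (x j) (x j)
    rw [real_inner_self_eq_norm_sq, hx j] at h1
    rw [Complex.normSq_mk]
    nlinarith [h1]
  · intro j k
    rw [key (x j) (x k)]
    simp [Complex.mul_re]

/-- Positivity of the sum over all triples. -/
lemma triple_sum_nonneg {ι : Type} [Fintype ι] (c : Cert) (x : ι → E3) (hx : ∀ j, ‖x j‖ = 1) :
    0 ≤ ∑ i, ∑ j, ∑ k, c.S (inner ℝ (x i) (x j)) (inner ℝ (x i) (x k)) (inner ℝ (x j) (x k)) := by
  refine Finset.sum_nonneg fun i _ => ?_
  obtain ⟨w, hw, ht⟩ := exists_frame (x i) (hx i) x hx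
  exact Sr_nonneg (fun j => inner ℝ (x i) (x j)) w (fun j k => inner ℝ (x j) (x k)) hw ht c.phi 0

/-- The Gram determinant of three unit vectors is nonnegative. -/
lemma gram_nonneg (x y z : E3) (hx : ‖x‖ = 1) (hy : ‖y‖ = 1) (hz : ‖z‖ = 1) :
    0 ≤ 1 + 2 * (inner ℝ x y * inner ℝ x z * inner ℝ y z) -
      (inner ℝ x y ^ 2 + inner ℝ x z ^ 2 + (inner ℝ y z : ℝ) ^ 2) := by
  obtain ⟨w, hw, ht⟩ := exists_frame x hx ![y, z] (by
    intro j; fin_cases j
    · exact hy
    · exact hz)
  have h0 := hw 0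
  have h1 := hw 1
  have h2 := ht 0 1
  simp only [Matrix.cons_val_zero, Matrix.cons_val_one] at h0 h1 h2
  have h3 : ((w 0 * conj (w 1)).re) ^ 2 ≤ Complex.normSq (w 0) * Complex.normSq (w 1) := by
    have : Complex.normSq (w 0 * conj (w 1)) = Complex.normSq (w 0) * Complex.normSq (w 1) := by
      rw [Complex.normSq_mul, Complex.normSq_conj]
    rw [← this, Complex.normSq_apply]
    nlinarith [sq_nonneg ((w 0 * conj (w 1)).im)]
  rw [h0, h1, h2] at h3
  nlinarith [h3]

end Pool.Agent.Helper68
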